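import Pool.Agent.Lib.RYD.Blue
import Pool.Agent.Lib.RY.K_At
import Pool.Agent.Lib.RA.T_FIB

/-! Project ra2, step D: comparison of two admissible germs, the identity. -/

open scoped Classical Topology ContDiff ComplexOrder Matrix
open Set MeasureTheory Complex Metric Filter

set_option linter.unusedVariables false

noncomputable section

namespace Pool.Agent.Lib.RAD

open Pool.Agent.Lib.SV (E)
open Pool.Agent.Lib.HS32 Pool.Agent.Lib.RA

namespace BT1

theorem prp {V : Type} [NormedAddCommGroup V] [NormedSpace ℝ V] {A : V → ℝ} {K : Set V}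
    (hK : IsPreconnected K) (hA : ∀ p ∈ K, AnalyticAt ℝ A p) {p q : V} (hp : p ∈ K) (hq : q ∈ K)
    (h0 : A =ᶠ[𝓝 p] 0) : A =ᶠ[𝓝 q] 0 := by
  obtain ⟨r, hr, hb⟩ := Metric.eventually_nhds_iff_ball.1 (hA q hq).eventually_analyticAt
  have hU : IsPreconnected (K ∪ ball q r) :=
    hK.union q hq (mem_ball_self hr) (convex_ball q r).isPreconnected
  have han : AnalyticOnNhd ℝ A (K ∪ ball q r) := fun w hw => hw.elim (hA w) (hb w)
  have := han.eqOn_zero_of_preconnected_of_eventuallyEq_zero hU (Or.inl hp) h0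
  filter_upwards [ball_mem_nhds q hr] with w hw using this (Or.inr hw)

end BT1

theorem st_BT1 : St_BT1 := by
  intro n k j M φ ρ Φ δ ξ H H' x y hJ hx hy hs hxy
  set e := M.ch x with he
  set e' := M.ch y with he'
  have hxe : x ∈ e.source := Mf.mem_ch x
  have hye : y ∈ e'.source := Mf.mem_ch y
  have hval : (H' ∘ e'.symm) (e' y) = H x := by
    simp only [Function.comp, e'.left_inv hye, hxy]
  obtain ⟨s, hsa, hs0, hs1, -⟩ := st_FIB (E n) (E (k + j)) (H' ∘ e'.symm) (e' y)
    (ANB.analyticAt (KA.at_ch hy.iso.1)) (KA.at_ch hs)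
  rw [hval] at hsa hs0 hs1
  have hHc : ContinuousAt H x := KA.holAt_cont hx.iso.1
  have hsN : HolN s (H x) := hsa.eventually_analyticAt.mono fun w hw => hw.differentiableAt
  have hθ0 : e'.symm (s (H x)) = y := by rw [hs0, e'.left_inv hye]
  have hθc : ContinuousAt (fun w => e'.symm (s (H w))) x := by
    have h1 : ContinuousAt e'.symm (s (H x)) := by
      rw [hs0]; exact e'.continuousAt_symm (e'.map_source hye)
    exact ContinuousAt.comp (f := fun w => s (H w)) h1 (hsa.continuousAt.comp hHc)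
  have hθH : ∀ᶠ w in 𝓝 x, H' (e'.symm (s (H w))) = H w := hHc.eventually hs1
  refine ⟨fun w => e'.symm (s (H w)), hθ0, hθc, ?_, hθH, ?_⟩
  · intro e'' he'' hy''
    have h1 : HolN (e'' ∘ e'.symm) (s (H x)) := by
      rw [hs0]; exact KA.hol_tr he'' (Mf.ch_mem y) hy'' hye
    exact KA.holAt_comp (K := (e'' ∘ e'.symm) ∘ s) (KA.holN_comp h1 hsN) hx.iso.1
  · set κ : E n → E n := fun z => s (H (e.symm z)) with hκ
    have hκ0 : κ (e x) = e' y := by simp only [hκ, e.left_inv hxe, hs0]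
    have hκa : AnalyticAt ℝ κ (e x) := by
      have h1 : HolN (s ∘ (H ∘ e.symm)) (e x) :=
        KA.holN_comp (by simpa only [Function.comp, e.left_inv hxe] using hsN)
          (KA.at_ch hx.iso.1)
      exact KA.an_of_hol h1
    set A : (Fin k → ℝ) × E n → ℝ := fun p => ρ p.1 (e.symm p.2) - ρ 0 (e.symm p.2) -
      (ρ (-ξ + p.1) (e'.symm (κ p.2)) - ρ (-ξ) (e'.symm (κ p.2))) with hA
    have han : ∀ τ ∈ Icc (0 : ℝ) 1, AnalyticAt ℝ A (τ • ξ, e x) := by
      intro τ hτ
      have h1 := KA.at_ch (hJ τ hτ).1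
      have h2 := KA.at_ch (hJ 0 (left_mem_Icc.2 zero_le_one)).1
      have h3 := KA.at_ch (hJ (1 - τ) ⟨by linarith [hτ.2], by linarith [hτ.1]⟩).2
      have h4 := KA.at_ch (hJ 1 (right_mem_Icc.2 zero_le_one)).2
      rw [zero_smul] at h2
      rw [one_smul] at h4
      have hk2 : AnalyticAt ℝ (fun p : (Fin k → ℝ) × E n => κ p.2) (τ • ξ, e x) :=
        AnalyticAt.comp_of_eq (g := κ) (f := fun p : (Fin k → ℝ) × E n => p.2) hκa analyticAt_snd
          rfl
      have g2 : AnalyticAt ℝ (fun p : (Fin k → ℝ) × E n => ρ 0 (e.symm p.2)) (τ • ξ, e x) :=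
        AnalyticAt.comp_of_eq (g := fun w : (Fin k → ℝ) × E n => ρ w.1 (e.symm w.2))
          (f := fun p : (Fin k → ℝ) × E n => ((0 : Fin k → ℝ), p.2)) h2
          (analyticAt_const.prod analyticAt_snd) rfl
      have g3 : AnalyticAt ℝ (fun p : (Fin k → ℝ) × E n => ρ (-ξ + p.1) (e'.symm (κ p.2)))
          (τ • ξ, e x) := by
        refine AnalyticAt.comp_of_eq (f := fun p : (Fin k → ℝ) × E n => (-ξ + p.1, κ p.2)) h3
          ((analyticAt_const.add analyticAt_fst).prod hk2) ?_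
        simp only [hκ0]
        congr 1
        rw [sub_smul, one_smul]
        abel
      have g4 : AnalyticAt ℝ (fun p : (Fin k → ℝ) × E n => ρ (-ξ) (e'.symm (κ p.2)))
          (τ • ξ, e x) := by
        refine AnalyticAt.comp_of_eq (f := fun p : (Fin k → ℝ) × E n => (-ξ, κ p.2)) h4
          (analyticAt_const.prod hk2) ?_
        simp only [hκ0]
        rfl
      exact (h1.sub g2).sub (g3.sub g4)
    have h0 : A =ᶠ[𝓝 ((0 : Fin k → ℝ), e x)] 0 := by
      have c1 : ContinuousAt (fun p : (Fin k → ℝ) × M.X => (p.1, e'.symm (s (H p.2)))) (0, x) :=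
        continuousAt_fst.prodMk (ContinuousAt.comp_of_eq (g := fun w => e'.symm (s (H w)))
          (f := fun p : (Fin k → ℝ) × M.X => p.2) hθc continuousAt_snd rfl)
      have f1 : ∀ᶠ w : (Fin k → ℝ) × M.X in 𝓝 (0, y),
          ρ (-ξ + w.1) w.2 - ρ (-ξ) w.2 = ph0 Φ (sh (H' w.2) w.1) - ph0 Φ (H' w.2) := hy.fam
      have f2 := c1.eventually
        (p := fun w => ρ (-ξ + w.1) w.2 - ρ (-ξ) w.2 = ph0 Φ (sh (H' w.2) w.1) - ph0 Φ (H' w.2))
        (by simpa only [hθ0] using f1)
      have f3 : ∀ᶠ p : (Fin k → ℝ) × M.X in 𝓝 (0, x), H' (e'.symm (s (H p.2))) = H p.2 :=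
        (continuousAt_snd (p := ((0 : Fin k → ℝ), x))).eventually hθH
      have f4 : ∀ᶠ p : (Fin k → ℝ) × M.X in 𝓝 (0, x), ρ p.1 p.2 - ρ 0 p.2 -
          (ρ (-ξ + p.1) (e'.symm (s (H p.2))) - ρ (-ξ) (e'.symm (s (H p.2)))) = 0 := by
        filter_upwards [hx.fam, f2, f3] with p q1 q2 q3
        rw [zero_add] at q1
        simp only [q3] at q2
        rw [q1, q2, sub_self]
      have c2 : ContinuousAt (fun p : (Fin k → ℝ) × E n => (p.1, e.symm p.2)) (0, e x) :=
        continuousAt_fst.prodMk (ContinuousAt.comp (f := fun p : (Fin k → ℝ) × E n => p.2)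
          (e.continuousAt_symm (e.map_source hxe)) continuousAt_snd)
      exact c2.eventually (by simpa only [e.left_inv hxe] using f4)
    have hK : IsPreconnected ((fun τ : ℝ => (τ • ξ, e x)) '' Icc (0 : ℝ) 1) :=
      isPreconnected_Icc.image _ (by fun_prop)
    have h1 : A =ᶠ[𝓝 (ξ, e x)] 0 := by
      refine BT1.prp hK ?_ ⟨0, left_mem_Icc.2 zero_le_one, by simp⟩
        ⟨1, right_mem_Icc.2 zero_le_one, by simp⟩ h0
      rintro _ ⟨τ, hτ, rfl⟩
      exact han τ hτ
    have c3 : ContinuousAt (fun p : (Fin k → ℝ) × M.X => (ξ + p.1, e p.2)) (0, x) :=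
      (continuousAt_const.add continuousAt_fst).prodMk
        (ContinuousAt.comp (f := fun p : (Fin k → ℝ) × M.X => p.2) (e.continuousAt hxe)
          continuousAt_snd)
    have h1' : ∀ᶠ q in 𝓝 (ξ, e x), A q = 0 := h1
    have f5 := c3.eventually (p := fun q => A q = 0) (by simpa only [add_zero] using h1')
    have f6 : ∀ᶠ p : (Fin k → ℝ) × M.X in 𝓝 (0, x), p.2 ∈ e.source :=
      (continuousAt_snd (p := ((0 : Fin k → ℝ), x))).eventually (e.open_source.mem_nhds hxe)
    filter_upwards [f5, f6] with p q1 q2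
    simp only [hA, hκ, e.left_inv q2, neg_add_cancel_left] at q1
    exact sub_eq_zero.1 q1

end Pool.Agent.Lib.RAD
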