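import Pool.Agent.Lib.RYD.Blue
import Pool.Agent.Lib.RY.B_TV

/-! Project ra2, step D: the chain of parameters. -/

open scoped Topology
open Set Metric Filter Complex

noncomputable section

namespace Pool.Agent.Lib.RAD

open Pool.Agent.Lib.SV (E)
open Pool.Agent.Lib.HS32 Pool.Agent.Lib.RA

namespace CHA

variable {n k j : ℕ}

theorem io_norm (a : Fin k → ℝ) : ‖io j a‖ ≤ ‖a‖ := by
  refine (pi_norm_le_iff_of_nonneg (norm_nonneg a)).2 fun i => Fin.addCases (fun i => ?_)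
    (fun l => ?_) i
  · rw [TVB.io_l, norm_real]
    exact norm_le_pi_norm a _
  · rw [TVB.io_r, norm_zero]
    exact norm_nonneg a

theorem pj_sh (t : E (k + j)) (a : Fin k → ℝ) : ‖pj (sh t a)‖ ≤ ‖pj t‖ + ‖a‖ / 2 := by
  rw [sh, TVB.pj_add]
  refine (norm_add_le _ _).trans (add_le_add le_rfl ((TVB.pj_norm _).trans ((io_norm _).trans ?_)))
  rw [norm_smul, Real.norm_eq_abs, abs_of_pos (by norm_num : (0 : ℝ) < 1 / 2)]
  linarith

theorem pj_zero : pj (0 : E (k + j)) = 0 := TVB.ext2 (fun i => by simp) fun l => by simp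

theorem io_neg (a : Fin k → ℝ) : io j (-a) = -io j a :=
  TVB.ext2 (fun i => by simp) fun l => by simp

end CHA

open CHA in
theorem st_CHA (PRD : St_PRD) (SHF : St_SHF) (ZER : St_ZER) (ATL : St_ATL) (WAD : St_WAD)
    (RKP : St_RKP) (hX0 : St_X0) : St_CHA := by
  intro n k j N M hC G φ μ ρ R x₀ Φ δ c O H σ hS hI hJ hB hN ξ hξ
  have hT := hB.tv
  have hδ := hT.d0
  have small : ∀ ζ ∈ ball (0 : Fin k → ℝ) R, ∀ H₁ x₁, Adm M φ ρ Φ δ ζ H₁ x₁ → Subm M H₁ x₁ →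
      ‖pj (H₁ x₁)‖ < δ / 2 → ∀ ε > 0, ∃ H₂ x₂, Adm M φ ρ Φ δ ζ H₂ x₂ ∧ Subm M H₂ x₂ ∧
        ‖pj (H₂ x₂)‖ < ε := by
    intro ζ hζ H₁ x₁ h1 h2 h3
    obtain ⟨p1, p2, p3⟩ := PRD n k j M φ ρ Φ δ c ζ hS.wt hS.an hT (hJ ζ hζ)
    have w := p3.w _ _ h1
    obtain ⟨a1, a2, -⟩ := (WAD n k j M _ (pm M ρ ζ) Φ δ c p1 p2 hT).2.1 H₁ x₁ w.iso w.val
    have rk := RKP n M _ (k + j) x₁ p1 p2 a2
    have den := ((hX0 n M _ (k + j) p1 p2 rk).2.2 hC ⟨x₁, a1.1 h2⟩).1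
    obtain ⟨m, O', H', χ, hA⟩ := ATL n k j N M _ _ Φ δ c _ ⟨p1, p2, rk, den⟩ hT hN p3
    exact ZER n k j m N M G _ _ O' H' χ (δ / 2) H₁ x₁ hS.kae hA h1 h2 h3
  obtain ⟨N₀, hN₀⟩ := exists_nat_gt (2 * ‖ξ‖ / δ)
  have n0 : (0 : ℝ) < N₀ := lt_of_le_of_lt (by positivity) hN₀
  have mem : ∀ τ : ℝ, 0 ≤ τ → τ ≤ 1 → τ • ξ ∈ ball (0 : Fin k → ℝ) R := by
    intro τ h0 h1
    rw [mem_ball_zero_iff] at hξ ⊢
    rw [norm_smul, Real.norm_eq_abs, abs_of_nonneg h0]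
    nlinarith [norm_nonneg ξ]
  have chain : ∀ l : ℕ, l ≤ N₀ → ∃ H' y, Adm M φ ρ Φ δ (((l : ℝ) / N₀) • ξ) H' y ∧ Subm M H' y ∧
      ‖pj (H' y)‖ < δ / 2 := by
    intro l
    induction l with
    | zero =>
      intro _
      have e0 : ρ 0 = fun _ => 0 := funext hI.z0
      have e1 : M.hw φ + M.hs (ρ 0) = M.hw φ := by
        funext e z
        have : M.hs (ρ 0) e z = 0 := by
          rw [e0]
          exact hess_const (z := z) ((0 : ℝ) : ℂ)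
        simp [this]
      have v0 : ‖pj (H x₀)‖ = 0 := by rw [hB.zero, pj_zero, norm_zero]
      refine ⟨H, x₀, ?_, hB.sub _ hB.mem, by linarith⟩
      rw [Nat.cast_zero, zero_div, zero_smul]
      exact ⟨by rw [e1]; exact (hB.adm _ hB.mem).iso, by linarith,
        hI.box x₀ Φ δ c O H σ hB _ hB.mem⟩
    | succ l ih =>
      intro hl
      have hl' : (l : ℝ) + 1 ≤ N₀ := by exact_mod_cast hl
      have l0 : (0 : ℝ) ≤ l := Nat.cast_nonneg l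
      obtain ⟨H₁, x₁, h1, h2, h3⟩ := ih (by omega)
      obtain ⟨H₂, x₂, h4, h5, h6⟩ := small _
        (mem _ (by positivity) ((div_le_one n0).2 (by linarith))) H₁ x₁ h1 h2 h3 (δ / 4)
        (by positivity)
      have h7 : ‖pj (sh (H₂ x₂) (((1 : ℝ) / N₀) • ξ))‖ < δ / 2 := by
        have := pj_sh (H₂ x₂) (((1 : ℝ) / N₀) • ξ)
        rw [norm_smul, Real.norm_eq_abs, abs_of_pos (by positivity)] at this
        have h8 : 1 / (N₀ : ℝ) * ‖ξ‖ < δ / 2 := by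
          rw [div_lt_iff₀ hδ] at hN₀
          rw [div_mul_eq_mul_div, div_lt_iff₀ n0]
          linarith
        linarith
      obtain ⟨h9, h10⟩ := SHF n k j M φ ρ Φ δ c _ (((1 : ℝ) / N₀) • ξ) H₂ x₂ hT (fun τ hτ => by
        rw [smul_smul, ← add_smul]
        refine hJ _ (mem _ (by have := hτ.1; positivity) ?_) _
        rw [← mul_div_assoc, ← add_div, div_le_one n0]
        linarith [hτ.2]) h4 (by linarith)
      refine ⟨_, x₂, ?_, h10 h5, h7⟩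
      rwa [← add_smul, ← add_div, ← Nat.cast_succ] at h9
  intro ε hε
  obtain ⟨H₁, x₁, h1, h2, h3⟩ := chain N₀ le_rfl
  rw [div_self n0.ne', one_smul] at h1
  obtain ⟨H₂, x₂, h4, h5, h6⟩ := small ξ hξ H₁ x₁ h1 h2 h3 ε hε
  obtain ⟨-, -, p3⟩ := PRD n k j M φ ρ Φ δ c ξ hS.wt hS.an hT (hJ ξ hξ)
  obtain ⟨a, ha⟩ : ∃ a, H₂ x₂ = pj (H₂ x₂) + I • io j a := ⟨_, TVB.split _⟩
  have e : H₂ x₂ + I • io j (-a) = pj (H₂ x₂) := by
    rw [io_neg, smul_neg, ← sub_eq_add_neg, sub_eq_iff_eq_add]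
    exact ha
  refine ⟨fun y => H₂ y + I • io j (-a), x₂, p3.tr H₂ _ x₂ h4 ⟨-a, .of_forall fun _ => rfl⟩,
    fun e he hx => ?_, ?_, ?_⟩
  · have := h5 e he hx
    have e2 : ((fun y => H₂ y + I • io j (-a)) ∘ e.symm) =
        fun z => (H₂ ∘ e.symm) z + I • io j (-a) := rfl
    beta_reduce
    rwa [e2, fderiv_add_const]
  · simp only [e, TVB.pj_pj]
  · simpa only [e] using h6

end Pool.Agent.Lib.RAD
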