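import Pool.Agent.Lib.RYD.Blue
import Pool.Agent.Lib.RY.K_At

/-! Project ra2, step D: in a box the fields are coordinate fields. -/

open scoped Classical Topology ContDiff ComplexOrder Matrix
open Set MeasureTheory Complex Metric Filter

set_option linter.unusedVariables false

noncomputable section

namespace Pool.Agent.Lib.RAD

open Pool.Agent.Lib.SV (E)
open Pool.Agent.Lib.HS32 Pool.Agent.Lib.RA

namespace FLD

theorem dg_ball {n : ℕ} {a z : E n} {R : ℝ} (hz : z ∈ ball a R) : dg z ∈ ball (dg a) R := by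
  rw [mem_ball, Prod.dist_eq, max_lt_iff]
  refine ⟨hz, ?_⟩
  show dist (star z) (star a) < R
  rw [dist_eq_norm, ← star_sub, norm_star, ← dist_eq_norm]
  exact hz

theorem dzb_ev {n : ℕ} {f g : E n → ℂ} {z : E n} (h : f =ᶠ[𝓝 z] g) (l : Fin n) :
    dzb l f z = dzb l g z := by
  unfold dzb
  rw [h.fderiv_eq]

theorem kill {n r : ℕ} (J : Matrix (Fin r) (Fin n) ℂ) (P : Mat r) {c : ℝ} (hc : 0 < c)
    (hP : (P - (c : ℂ) • (1 : Mat r)).PosSemidef) (u : Fin r → ℂ) (v : Fin n → ℂ)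
    (hv : J *ᵥ v = u) (h : Jᴴ *ᵥ (P *ᵥ u) = 0) : u = 0 := by
  have h1 : star u ⬝ᵥ (P *ᵥ u) = 0 := by
    have : star v ⬝ᵥ (Jᴴ *ᵥ (P *ᵥ u)) = 0 := by rw [h, dotProduct_zero]
    rwa [Matrix.dotProduct_mulVec, ← Matrix.star_mulVec, hv] at this
  have h2 := hP.dotProduct_mulVec_nonneg u
  rw [Matrix.sub_mulVec, dotProduct_sub, h1, Matrix.smul_mulVec, Matrix.one_mulVec,
    dotProduct_smul, zero_sub, smul_eq_mul] at h2
  have h3 : 0 ≤ star u ⬝ᵥ u := dotProduct_star_self_nonneg u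
  have h4 : (0 : ℂ) < c := by exact_mod_cast hc
  have h5 : star u ⬝ᵥ u = 0 := by
    have h6 : (c : ℂ) * (star u ⬝ᵥ u) = 0 :=
      le_antisymm (neg_nonneg.1 h2) (mul_nonneg h4.le h3)
    exact (mul_eq_zero.1 h6).resolve_left h4.ne'
  exact dotProduct_star_self_eq_zero.1 h5

end FLD

open FLD in
theorem st_FLD (hW : St_WAD) (hC : St_CH2) (hT : St_TV) (hP : St_PZ) : St_FLD := by
  intro n k j M φ μ x₀ Φ δ c O H σ e a R F m d Ξ i hφ hB he hsub hF hm hX z hz hx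
  have hzt : z ∈ e.target := hsub hz
  have adm := hB.adm _ hx
  have hH : HolN (H ∘ e.symm) z := KA.at_tgt he hzt adm.iso.1
  have hS : Function.Surjective (fderiv ℂ (H ∘ e.symm) z) := KA.at_tgt he hzt (hB.sub _ hx)
  obtain ⟨c1, -, -, -, -, c6, -⟩ := hC n (k + j) (H ∘ e.symm) z hH
  obtain ⟨-, -, -, -, t5, -⟩ := hT k j Φ δ c hB.tv
  obtain ⟨-, ta, tb, -, tc, -⟩ := t5 _ adm.val
  have w1 := (KA.at_tgt he hzt
    ((hW n k j M φ μ Φ δ c hφ.wt hφ.an hB.tv).2.1 H _ adm.iso adm.val).2.2).1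
  have p1 : hr (φ e) z = Gm F (dg z) := ((hP n F a R hF.hol).2.1 _ hF z hz).2.1
  have p2 : dbv (μ i ∘ e.symm) z = pu m (dg z) := ((hP n m a R hm.hol).2.1 _ hm z hz).2.2.2
  have f1 : d z • pu m (dg z) = Gm F (dg z) *ᵥ Ξ z := hX.eq (dg z) (dg_ball hz)
  set J := jr (H ∘ e.symm) z with hJ
  set P := hr (ph0 Φ) (H (e.symm z)) with hPd
  have g1 : Gm F (dg z) = Jᴴ * P * J := p1.symm.trans w1
  have g2 : pu m (dg z) = Jᴴ *ᵥ (P *ᵥ Pi.single (Fin.castAdd j i) 1) := by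
    rw [← p2, ← tc i]
    funext l
    have ev : (fun w => (((μ i ∘ e.symm) w : ℝ) : ℂ)) =ᶠ[𝓝 z]
        (fun t => ((mu0 Φ t i : ℝ) : ℂ)) ∘ (H ∘ e.symm) := by
      filter_upwards [(KA.ev_iff' hzt).1 adm.mom] with w hw
      simp only [Function.comp, hw i]
    have hd : DifferentiableAt ℝ (fun t => ((mu0 Φ t i : ℝ) : ℂ)) ((H ∘ e.symm) z) :=
      (ofRealCLM.differentiableAt).comp _ (differentiableAt_pi.1 ta.differentiableAt i)
    show dzb l _ z = _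
    rw [dzb_ev ev l, (c6 _ hd l).2]
    simp only [Matrix.mulVec, dotProduct, Matrix.conjTranspose_apply, dbv, Function.comp]
    exact Finset.sum_congr rfl fun b _ => mul_comm _ _
  have hlo : (P - (c : ℂ) • (1 : Mat (k + j))).PosSemidef := by
    rw [tb]
    exact hB.tv.lo _ (mem_ball_zero_iff.2 adm.val)
  obtain ⟨v, hv⟩ := hS (J *ᵥ Ξ z - d z • Pi.single (Fin.castAdd j i) 1)
  rw [c1] at hv ⊢
  refine sub_eq_zero.1 (kill J P hB.tv.c0 hlo _ v hv ?_)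
  rw [Matrix.mulVec_sub, Matrix.mulVec_sub, Matrix.mulVec_smul, Matrix.mulVec_smul, ← g2, f1, g1,
    Matrix.mulVec_mulVec, Matrix.mulVec_mulVec, sub_self]

end Pool.Agent.Lib.RAD
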