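import Pool.Agent.Lib.RY.Defs
import Pool.Agent.Lib.RA.T_POL
import Pool.Agent.Lib.RA.T_AN

/-! Project ra2, step D: small tools. -/

open scoped Topology
open Set Metric Filter

noncomputable section

namespace Pool.Agent.Lib.RAD.DK

open Pool.Agent.Lib.SV (E)
open Pool.Agent.Lib.RA

/-- Analytic propagation along a preconnected set. -/
theorem prp {V F : Type*} [NormedAddCommGroup V] [NormedSpace ℝ V] [NormedAddCommGroup F]
    [NormedSpace ℝ F] [CompleteSpace F] {A : V → F} {K : Set V} (hK : IsPreconnected K)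
    (hA : AnalyticOnNhd ℝ A K)
    {p q : V} (hp : p ∈ K) (h0 : ∀ᶠ w in 𝓝 p, A w = 0) (hq : q ∈ K) : ∀ᶠ w in 𝓝 q, A w = 0 := by
  obtain ⟨r, hr, hb⟩ := Metric.mem_nhds_iff.1 (hA q hq).eventually_analyticAt
  have h1 : AnalyticOnNhd ℝ A (K ∪ ball q r) := fun w hw => hw.elim (hA w) fun h => hb h
  have h2 := h1.eqOn_zero_of_preconnected_of_eventuallyEq_zero
    (hK.union q hq (mem_ball_self hr) (convex_ball q r).isPreconnected) (Or.inl hp) h0
  filter_upwards [ball_mem_nhds q hr] with w hw using h2 (Or.inr hw)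

/-- The same along a segment. -/
theorem prp_seg {V F : Type*} [NormedAddCommGroup V] [NormedSpace ℝ V] [NormedAddCommGroup F]
    [NormedSpace ℝ F] [CompleteSpace F] {A : V → F} {p v : V}
    (hA : ∀ τ ∈ Icc (0 : ℝ) 1, AnalyticAt ℝ A (p + τ • v))
    (h0 : ∀ᶠ w in 𝓝 p, A w = 0) : ∀ᶠ w in 𝓝 (p + v), A w = 0 := by
  refine prp (K := (fun τ : ℝ => p + τ • v) '' Icc 0 1)
    (isPreconnected_Icc.image _ (by fun_prop)) ?_ ⟨0, by simp, by simp⟩ h0 ⟨1, by simp, by simp⟩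
  rintro _ ⟨τ, hτ, rfl⟩
  exact hA τ hτ

variable {k : ℕ}

/-- The complexification as a real linear map. -/
def cxL (k : ℕ) : (Fin k → ℝ) →L[ℝ] E k :=
  ContinuousLinearMap.pi fun i => Complex.ofRealCLM.comp (ContinuousLinearMap.proj i)

theorem cxL_apply (a : Fin k → ℝ) : cxL k a = cx a := rfl

theorem cx_zero : cx (0 : Fin k → ℝ) = 0 := (cxL k).map_zero

theorem cx_add (a b : Fin k → ℝ) : cx (a + b) = cx a + cx b := (cxL k).map_add a b

theorem cx_sub (a b : Fin k → ℝ) : cx (a - b) = cx a - cx b := (cxL k).map_sub a b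

theorem cx_neg (a : Fin k → ℝ) : cx (-a) = -cx a := (cxL k).map_neg a

theorem cx_smul (t : ℝ) (a : Fin k → ℝ) : cx (t • a) = t • cx a := (cxL k).map_smul t a

theorem cont_cx : Continuous (cx : (Fin k → ℝ) → E k) := (cxL k).continuous

theorem an_cx (a : Fin k → ℝ) : AnalyticAt ℝ (cx : (Fin k → ℝ) → E k) a := (cxL k).analyticAt a

theorem norm_cx (a : Fin k → ℝ) : ‖cx a‖ = ‖a‖ := by
  simp only [Pi.norm_def, cx, Complex.nnnorm_real]

theorem cx_mem {a b : Fin k → ℝ} {r : ℝ} : cx a ∈ ball (cx b) r ↔ a ∈ ball b r := by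
  rw [mem_ball_iff_norm, mem_ball_iff_norm, ← cx_sub, norm_cx]

theorem r2_cx (a : Fin k → ℝ) : r2 (cx a) = (2 : ℝ) • a := by
  funext i; simp [r2, cx]

/-- A holomorphic function read on real points is real analytic. -/
theorem an_comp {G : Type} [NormedAddCommGroup G] [NormedSpace ℂ G] [CompleteSpace G]
    {g : E k → G} {O : Set (E k)} (hO : IsOpen O) (hg : DifferentiableOn ℂ g O) {a : Fin k → ℝ}
    (ha : cx a ∈ O) : AnalyticAt ℝ (fun b => g (cx b)) a :=
  ((ANB.analyticOnNhd hO hg _ ha).restrictScalars (𝕜 := ℝ)).comp (an_cx a)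

/-- A holomorphic germ that vanishes at the real points vanishes. -/
theorem ev_cx {G : Type} [NormedAddCommGroup G] [NormedSpace ℂ G] [CompleteSpace G]
    {g : E k → G} {a : Fin k → ℝ} (hg : ∀ᶠ w in 𝓝 (cx a), DifferentiableAt ℂ g w)
    (h0 : ∀ᶠ b in 𝓝 a, g (cx b) = 0) : ∀ᶠ w in 𝓝 (cx a), g w = 0 :=
  (RF.re k).ev_zero hg h0

theorem lev_congr {V : Type} [NormedAddCommGroup V] [NormedSpace ℝ V] [NormedSpace ℂ V]
    {f g : V → ℝ} {z : V} (e : f =ᶠ[𝓝 z] g) (v : V) : lev f z v = lev g z v := by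
  have h : ∀ u : V, (fun w => fderiv ℝ f w u) =ᶠ[𝓝 z] fun w => fderiv ℝ g w u := fun u =>
    (e.fderiv (𝕜 := ℝ)).mono fun w hw => by simp only [hw]
  simp only [lev, (h _).fderiv_eq]

end Pool.Agent.Lib.RAD.DK
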