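import Pool.Agent.Lib.RYD.Blue
import Pool.Agent.Lib.RY.K_At
import Pool.Agent.Lib.RA.T_PK

/-! Project ra2, step D: joint analyticity in all charts. -/

open scoped Classical Topology ContDiff ComplexOrder Matrix
open Set MeasureTheory Complex Metric Filter

noncomputable section

namespace Pool.Agent.Lib.RAD

open Pool.Agent.Lib.SV (E)
open Pool.Agent.Lib.HS32 Pool.Agent.Lib.RA

namespace JAP

variable {n k : ℕ}

theorem an_cx (ξ : Fin k → ℝ) : AnalyticAt ℝ (cx : (Fin k → ℝ) → E k) ξ :=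
  analyticAt_pi_iff.2 fun i =>
    (ofRealCLM.comp (ContinuousLinearMap.proj (R := ℝ) (φ := fun _ : Fin k => ℝ) i)).analyticAt ξ

/-- Joint analyticity in one chart from a polarisation. -/
theorem one {f : (Fin k → ℝ) → E n → ℝ} {R : E k × (E n × E n) → ℂ} {ξ : Fin k → ℝ} {c : E n}
    {s d : ℝ} (hs : 0 < s) (hd : 0 < d) (hR : DifferentiableOn ℂ R (ball (cx ξ) s ×ˢ ball (dg c) d))
    (h : ∀ ξ' ∈ ball ξ s, ∀ z ∈ ball c d, R (cx ξ', dg z) = f ξ' z) :
    AnalyticAt ℝ (fun w : (Fin k → ℝ) × E n => f w.1 w.2) (ξ, c) := by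
  have h1 : AnalyticAt ℝ R (cx ξ, dg c) :=
    (ANB.analyticOnNhd (isOpen_ball.prod isOpen_ball) hR _
      ⟨mem_ball_self hs, mem_ball_self hd⟩).restrictScalars
  have h2 : AnalyticAt ℝ (fun w : (Fin k → ℝ) × E n => (cx w.1, dg w.2)) (ξ, c) :=
    (AnalyticAt.comp (g := cx) (f := fun w : (Fin k → ℝ) × E n => w.1) (x := (ξ, c)) (an_cx ξ)
      analyticAt_fst).prod
      (AnalyticAt.comp (g := PK.dgL n) (f := fun w : (Fin k → ℝ) × E n => w.2) (x := (ξ, c))
        ((PK.dgL n).analyticAt c) analyticAt_snd)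
  have h3 := (reCLM.analyticAt _).comp (AnalyticAt.comp (g := R)
    (f := fun w : (Fin k → ℝ) × E n => (cx w.1, dg w.2)) (x := (ξ, c)) h1 h2)
  refine h3.congr ?_
  filter_upwards [prod_mem_nhds (ball_mem_nhds ξ hs) (ball_mem_nhds c hd)] with w hw
  simp only [Function.comp, reCLM_apply, h w.1 hw.1 w.2 hw.2, ofReal_re]

/-- Joint analyticity in one chart gives joint analyticity in all charts. -/
theorem ja_of {M : Mf n} {ρ : (Fin k → ℝ) → M.X → ℝ} {ξ : Fin k → ℝ} {x : M.X} {e : M.Ch}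
    (he : e ∈ M.C) (hx : x ∈ e.source)
    (h : AnalyticAt ℝ (fun w : (Fin k → ℝ) × E n => ρ w.1 (e.symm w.2)) (ξ, e x)) :
    JA M ρ ξ x := by
  intro e' he' hx'
  have h2 : AnalyticAt ℝ (fun w : (Fin k → ℝ) × E n => (w.1, (e ∘ e'.symm) w.2)) (ξ, e' x) :=
    analyticAt_fst.prod (AnalyticAt.comp (g := e ∘ e'.symm)
      (f := fun w : (Fin k → ℝ) × E n => w.2) (x := (ξ, e' x))
      (KA.an_of_hol (KA.hol_tr he he' hx hx')) analyticAt_snd)
  have h3 := AnalyticAt.comp (g := fun w : (Fin k → ℝ) × E n => ρ w.1 (e.symm w.2))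
    (by simpa only [KA.tr_pt hx'] using h) h2
  refine h3.congr ?_
  have h4 : ∀ᶠ w : (Fin k → ℝ) × E n in 𝓝 (ξ, e' x), e'.symm w.2 ∈ e.source :=
    (continuous_snd.tendsto (ξ, e' x)).eventually
      ((KA.ev_iff hx').1 (e.open_source.eventually_mem hx))
  filter_upwards [h4] with w hw
  simp only [Function.comp, e.left_inv hw]

end JAP

theorem st_JAP : St_JAP := by
  intro n k M V ρ ξ s d B hs hd hP x
  obtain ⟨a, hx, hb, -⟩ := V.cov x
  have hc : V.e a x ∈ closedBall (V.c a) (2 * V.ρ a) :=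
    ball_subset_closedBall (ball_subset_ball (by linarith [V.pos a]) hb)
  obtain ⟨-, R, hR, -, h⟩ := hP a _ hc
  exact JAP.ja_of (V.mem a) hx
    (JAP.one (f := fun ξ' z => ρ ξ' ((V.e a).symm z)) hs hd hR h)

end Pool.Agent.Lib.RAD
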