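import Pool.Agent.Lib.RYD.Blue
import Pool.Agent.Lib.RY.B_PHH

/-! An admissible germ gives joint plurisubharmonicity. -/

open scoped Classical Topology ContDiff ComplexOrder Matrix
open Set MeasureTheory Complex Metric Filter

set_option linter.unusedVariables false

noncomputable section

namespace Pool.Agent.Lib.RAD

open Pool.Agent.Lib.SV (E)
open Pool.Agent.Lib.HS32 Pool.Agent.Lib.RA Pool.Agent.Lib.RA.PK Pool.Agent.Lib.RA.PHK

namespace JPA

theorem lev_congr {V : Type} [NormedAddCommGroup V] [NormedSpace ℝ V] [NormedSpace ℂ V]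
    {f g : V → ℝ} {z : V} (h : f =ᶠ[𝓝 z] g) (v : V) : lev f z v = lev g z v := by
  have e : ∀ u, (fun w => fderiv ℝ f w u) =ᶠ[𝓝 z] fun w => fderiv ℝ g w u := fun u =>
    (h.fderiv (𝕜 := ℝ)).mono fun w hw => by simp only [hw]
  rw [lev, lev, (e v).fderiv_eq, (e (I • v)).fderiv_eq]

/-- The first block as a linear map. -/
def a1 (k j : ℕ) : E k →L[ℂ] E (k + j) :=
  LinearMap.toContinuousLinearMap ⟨⟨fun t => Fin.append t 0, fun a b =>
    ext_fs (by simp) (by simp)⟩, fun r a => ext_fs (by simp) (by simp)⟩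

theorem pj_a1 {k j : ℕ} (t : E (k + j)) (ζ : E k) : pj (sh t (r2 ζ)) = pj (t + a1 k j ζ) :=
  ext_fs (by funext i; simp [sh, r2, show fx (a1 k j ζ) = ζ from fx_ap _ _])
    (by simp [show sx (a1 k j ζ) = 0 from sx_ap _ _])

theorem nq_nn {k j : ℕ} {Φ : E (k + j) × E (k + j) → ℂ} {δ c : ℝ} {t : E (k + j)}
    (h : Tv k j Φ δ c) (ht : ‖t‖ < 2 * δ) (v : E (k + j)) : 0 ≤ nq (Gm Φ (dg t)) v := by
  have h1 : ((c : ℂ) • (1 : Mat (k + j))).PosSemidef :=
    Matrix.PosSemidef.one.smul (by exact_mod_cast h.c0.le)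
  simpa [nq] using ((h.lo t (mem_ball_zero_iff.2 ht)).add h1).re_dotProduct_nonneg v

end JPA

open JPA in
theorem st_JPA (hL : St_LEV) : St_JPA := by
  intro n k j M φ ρ Φ δ c ξ H x hφ hT hJ hA e he hx v
  have s1 : ContDiffAt ℝ ∞ (φ e) (e x) := (hφ e he _ (e.map_source hx)).contDiffAt
  have s2 := sm_rho hJ e he hx
  have s0 := an_ph0 hT hA.val
  have s3 := sm_comp hA.iso.1 s0 e he hx
  set g : E n → ℝ := fun z => φ e z + (ρ ξ ∘ e.symm) z - ((ph0 Φ ∘ H) ∘ e.symm) z with hg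
  set Ψ : E k × E n → E (k + j) := fun w => (H ∘ e.symm) w.2 + a1 k j w.1 with hΨ
  have s4 : ContDiffAt ℝ ∞ g (e x) := (s1.add s2).sub s3
  have h0 : hr g (e x) = 0 := by
    have b1 := hess_sub ((cd_ofReal s1).add (cd_ofReal s2)) (cd_ofReal s3)
    rw [hess_add (cd_ofReal s1) (cd_ofReal s2)] at b1
    simp only [← ofReal_add, ← ofReal_sub] at b1
    exact b1.trans (sub_eq_zero.2 (hA.iso.2.self_of_nhds e he hx).symm)
  have hd : ∀ᶠ w in 𝓝 ((0 : E k), e x), DifferentiableAt ℂ Ψ w :=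
    ((continuous_snd.tendsto ((0 : E k), e x)).eventually (hA.iso.1 e he hx)).mono fun w hw =>
      (hw.comp w differentiableAt_snd).add ((a1 k j).differentiableAt.comp w differentiableAt_fst)
  have p1 := (hL.2 _ g _ s4).2.2.2 (E k × E n) Prod.snd ((0 : E k), e x) v
    (Eventually.of_forall fun _ => differentiableAt_snd) rfl
  have p2 := (hL.2 _ _ _ s0.contDiffAt).2.2.2 (E k × E n) Ψ ((0 : E k), e x) v hd
    (by simp [hΨ, e.left_inv hx])
  have t1 : Tendsto (fun w : E k × E n => (r2 w.1, e.symm w.2)) (𝓝 (0, e x)) (𝓝 (0, x)) := by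
    have c1 : Continuous (r2 : E k → Fin k → ℝ) := by unfold r2; fun_prop
    have c2 : r2 (0 : E k) = 0 := by funext i; simp [r2]
    exact ((c1.comp continuous_fst).tendsto' ((0 : E k), e x) 0 c2).prodMk_nhds
      ((e.tendsto_symm hx).comp (continuous_snd.tendsto ((0 : E k), e x)))
  have ev : (fun w : E k × E n => φ e w.2 + ρ (ξ + r2 w.1) (e.symm w.2)) =ᶠ[𝓝 (0, e x)]
      fun w => (g ∘ Prod.snd) w + (ph0 Φ ∘ Ψ) w := by
    filter_upwards [t1.eventually hA.fam] with w hw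
    have : ph0 Φ (sh (H (e.symm w.2)) (r2 w.1)) = ph0 Φ (Ψ w) := congrArg (pt Φ) (pj_a1 _ _)
    simp only [Function.comp, hg] at hw ⊢
    linarith
  rw [lev_congr ev, ((hL.2 _ _ _ p1.1).1 _ v p2.1).1, p1.2, p2.2, hL.1 _ _ _ _ s4,
    hL.1 _ _ _ _ s0.contDiffAt, h0, hr_ph0 hT hA.val]
  simpa [nq] using nq_nn hT hA.val _

end Pool.Agent.Lib.RAD
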