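import Pool.Agent.Lib.RYD.Blue
import Pool.Agent.Lib.RY.K_At
import Pool.Agent.Lib.RA.T_PK

/-! Project ra2, step D: the series on one polar ball. -/

open scoped Classical Topology ContDiff ComplexOrder Matrix
open Set MeasureTheory Complex Metric Filter

set_option linter.unusedVariables false

noncomputable section

namespace Pool.Agent.Lib.RAD

open Pool.Agent.Lib.SV (E)
open Pool.Agent.Lib.HS32 Pool.Agent.Lib.RA

namespace LOC

variable {n k j : ℕ}

/-- Finitely many holomorphic functions that are not identically zero on a ball have a common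
point where none of them vanishes. -/
theorem common {ι : Type} {a : E n} {R : ℝ} (hR : 0 < R) {δ : ι → E n → ℂ}
    (h : ∀ i, DifferentiableOn ℂ (δ i) (ball a R)) (h0 : ∀ i, ∃ z ∈ ball a R, δ i z ≠ 0)
    (s : Finset ι) : ∃ z ∈ ball a R, ∀ i ∈ s, δ i z ≠ 0 := by
  induction s using Finset.induction_on with
  | empty => exact ⟨a, mem_ball_self hR, by simp⟩
  | insert l s hl ih =>
    obtain ⟨z, hz, h1⟩ := ih
    have e1 : ∀ᶠ w in 𝓝 z, w ∈ ball a R ∧ ∀ i ∈ s, δ i w ≠ 0 := by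
      refine (isOpen_ball.eventually_mem hz).and ((eventually_all_finset s).2 fun i hi => ?_)
      exact ((h i).differentiableAt (isOpen_ball.mem_nhds hz)).continuousAt.eventually_ne (h1 i hi)
    have e2 : ∃ᶠ w in 𝓝 z, δ l w ≠ 0 := by
      intro q
      obtain ⟨z', hz', h2⟩ := h0 l
      exact h2 (KA.eq_ball (g' := fun _ => 0)
        (fun w hw => KA.an_of_hol (KA.holN_of_on isOpen_ball (h l) hw))
        (fun _ _ => analyticAt_const) hz (q.mono fun w hw => not_not.1 hw) hz')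
    obtain ⟨w, h2, h3, h4⟩ := (e2.and_eventually e1).exists
    exact ⟨w, h3, fun i hi => (Finset.mem_insert.1 hi).elim (fun q => q ▸ h2) (h4 i)⟩

theorem cx_zero : cx (0 : Fin k → ℝ) = 0 := by
  funext i
  simp [cx]

theorem cont_cx : Continuous (cx : (Fin k → ℝ) → E k) :=
  continuous_pi fun i => continuous_ofReal.comp (continuous_apply i)

theorem sh_zero (t : E (k + j)) : sh t (0 : Fin k → ℝ) = t := by
  funext i
  induction i using Fin.addCases with
  | left i => simp [sh, io, cx]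
  | right i => simp [sh, io]

end LOC

theorem st_LOC (hKPB : St_KPB) (hFLD : St_FLD) (hSEED : St_SEED) (hSER : St_SER) : St_LOC := by
  intro n k j M G φ μ e a R R' F₀ hSu hHF hKf hD hB he h0 hR hb hP
  choose m hm hm' using fun i =>
    hKPB n (k + j) M G φ (μ i) e a R F₀ hSu hHF (hKf.kp i) he (h0.trans hR) hb hP
  choose δ Ξ hF hne using fun i => (hm i).ex
  set d : E n → ℂ := fun z => ∏ i, δ i z with hd
  set N : Fin k → E n → E n := fun i z => (∏ l ∈ Finset.univ.erase i, δ l z) • Ξ i z with hN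
  have pr : ∀ s : Finset (Fin k), DifferentiableOn ℂ (fun z => ∏ l ∈ s, δ l z) (ball a R) :=
    fun s z hz => (HasFDerivAt.finsetProd fun l _ => ((hF l).hd.differentiableAt
      (isOpen_ball.mem_nhds hz)).hasFDerivAt).differentiableAt.differentiableWithinAt
  have dd : DifferentiableOn ℂ d (ball a R) := pr _
  have dN : ∀ i, DifferentiableOn ℂ (N i) (ball a R) := fun i => (pr _).smul (hF i).hx
  have seed : ∀ x₀ (Φ : E (k + j) × E (k + j) → ℂ) δ' c O H σ, Box M φ μ x₀ Φ δ' c O H σ →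
      ∀ z ∈ ball a R, e.symm z ∈ O → ∃ Ψ, Seed d N m Ψ z ∧
        (∀ᶠ p : (Fin k → ℝ) × E n in 𝓝 (0, z),
          Ψ (cx p.1, dg p.2) = ph0 Φ (sh (H (e.symm p.2)) p.1)) ∧
        (HolN d z → (∀ i, HolN (N i) z) → d z ≠ 0 → Dual Ψ z) := by
    intro x₀ Φ δ' c O H σ hx z hz hO
    refine hSEED n k j Φ δ' c (H ∘ e.symm) z d N m hx.tv
      (KA.at_tgt he (hb hz) (hx.adm _ hO).iso.1) (hx.val _ hO) (fun i => ?_) ?_
    · filter_upwards [isOpen_ball.mem_nhds (PK.dg_mem_ball.2 hz)] with w hw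
      exact (hm i).hol.differentiableAt (isOpen_ball.mem_nhds hw)
    · filter_upwards [isOpen_ball.mem_nhds hz,
        (KA.ev_iff' (hb hz)).1 (hx.op.eventually_mem hO)] with w h1 h2 i
      refine ⟨?_, ?_⟩
      · rw [(hm' i).eq w h1]
        exact congrArg _ ((hx.adm _ h2).mom.self_of_nhds i)
      · rw [hN]
        beta_reduce
        rw [map_smul, hFLD n k j M φ μ x₀ Φ δ' c O H σ e a R F₀ (m i) (δ i) (Ξ i) i hSu.toPot hx he
          hb hP (hm' i) (hF i) w h1 h2, smul_smul, Finset.prod_erase_mul _ _ (Finset.mem_univ i)]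
  obtain ⟨z₁, hz₁, h1⟩ := LOC.common (h0.trans hR) (fun i => (hF i).hd) hne Finset.univ
  have ev : ∀ᶠ y in 𝓝 (e.symm z₁), y ∈ e.source ∧ e y ∈ ball a R ∧ d (e y) ≠ 0 := by
    rw [KA.ev_iff' (hb hz₁)]
    filter_upwards [isOpen_ball.mem_nhds hz₁, (dd.differentiableAt
      (isOpen_ball.mem_nhds hz₁)).continuousAt.eventually_ne (Finset.prod_ne_zero_iff.2 h1)]
      with w h2 h3
    rw [e.right_inv (hb h2)]
    exact ⟨e.map_target (hb h2), h2, h3⟩
  obtain ⟨x₀, hx₀, s1, s2, s3⟩ :=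
    ((mem_closure_iff_frequently.1 (hD (e.symm z₁))).and_eventually ev).exists
  obtain ⟨Φ₀, δ₀, c₀, O₀, H₀, σ₀, b₀⟩ := hB x₀ hx₀
  obtain ⟨Ψ₀, p1, -, p3⟩ := seed x₀ Φ₀ δ₀ c₀ O₀ H₀ σ₀ b₀ (e x₀) s2
    (by rw [e.left_inv s1]; exact b₀.mem)
  obtain ⟨s, hs, F, f1, f2, f3, f4⟩ := hSER n k a R R' d N m Ψ₀ (e x₀) hR dd dN
    (fun i => (hm i).hol) s2 s3 p1
    (p3 (KA.holN_of_on isOpen_ball dd s2) (fun i => KA.holN_of_on isOpen_ball (dN i) s2) s3)
  refine ⟨s, hs, F, f1, f2, f3, fun x₁ Φ δ' c O H σ hx z hz hO => ?_⟩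
  obtain ⟨Ψ, q1, q2, -⟩ := seed x₁ Φ δ' c O H σ hx z (ball_subset_ball hR.le hz) hO
  have t1 : Tendsto (fun p : (Fin k → ℝ) × E n => (cx p.1, dg p.2)) (𝓝 (0, z))
      (𝓝 ((0 : E k), dg z)) := by
    have := ((LOC.cont_cx.comp continuous_fst).prodMk (PK.cont_dg.comp continuous_snd)).tendsto
      ((0 : Fin k → ℝ), z)
    simpa only [Function.comp, LOC.cx_zero] using this
  have t2 : Tendsto (fun p : (Fin k → ℝ) × E n => ((0 : Fin k → ℝ), p.2)) (𝓝 (0, z))
      (𝓝 (0, z)) := (continuous_const.prodMk continuous_snd).tendsto ((0 : Fin k → ℝ), z)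
  filter_upwards [t1.eventually (f4 Ψ z hz q1), q2, t2.eventually q2] with p r1 r2 r3
  rw [LOC.cx_zero, LOC.sh_zero] at r3
  rw [r1, r2, r3, ofReal_sub]

end Pool.Agent.Lib.RAD
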