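import Pool.Agent.Lib.RYD.Blue
import Pool.Agent.Lib.RA.T_PK
import Pool.Agent.Lib.RA.T_AN
import Pool.Agent.Lib.RA.T_XP
import Pool.Agent.Lib.RA.T_LIE
import Pool.Agent.Lib.RA.T_CONN

/-! Project ra2, step D: the Lie series of a meromorphic field. -/

open scoped Topology Nat
open Set Metric Filter

noncomputable section

namespace Pool.Agent.Lib.RAD

open Pool.Agent.Lib.SV
open Pool.Agent.Lib.HS32 Pool.Agent.Lib.RA

namespace SER

section gen

variable {V : Type} [NormedAddCommGroup V] [NormedSpace ℂ V] [FiniteDimensional ℂ V] {O : Set V}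
  {G : V → ℂ} {a x : V}

/-- Iterated derivative in one direction. -/
def it (a : V) (l : ℕ) (G : V → ℂ) (x : V) : ℂ := iteratedFDeriv ℂ l G x fun _ => a

theorem it_hol (hO : IsOpen O) (hG : DifferentiableOn ℂ G O) (a : V) (l : ℕ) :
    DifferentiableOn ℂ (it a l G) O :=
  (ANB.diff_iter hO hG l).continuousMultilinear_apply_const _

theorem it_succ (hO : IsOpen O) (hG : DifferentiableOn ℂ G O) (hx : x ∈ O) (a : V) (l : ℕ) :
    it a (l + 1) G x = fderiv ℂ (it a l G) x a := by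
  rw [it, iteratedFDeriv_succ_apply_left]
  exact (fderiv_continuousMultilinear_apply_const_apply
    ((ANB.diff_iter hO hG l).differentiableAt (hO.mem_nhds hx)) _ _).symm

theorem comm (hO : IsOpen O) (hG : DifferentiableOn ℂ G O) (hx : x ∈ O) {Y : V → V}
    (hY : DifferentiableAt ℂ Y x) (h0 : fderiv ℂ Y x a = 0) :
    fderiv ℂ (fun y => fderiv ℂ G y (Y y)) x a = fderiv ℂ (fun y => fderiv ℂ G y a) x (Y x) := by
  have hd := (H85.differentiableOn_fderiv hO hG).differentiableAt (hO.mem_nhds hx)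
  rw [PK.fd_symm (PK.hn_of_on hO hG hx), fderiv_clm_apply hd hY,
    fderiv_clm_apply hd (differentiableAt_const _)]
  simp [h0]

theorem iter (hO : IsOpen O) (hG : DifferentiableOn ℂ G O) {d : V → ℂ} {Y : V → V}
    (hd : ∀ x ∈ O, DifferentiableAt ℂ d x ∧ fderiv ℂ d x a = 0)
    (hY : ∀ x ∈ O, DifferentiableAt ℂ Y x ∧ fderiv ℂ Y x a = 0)
    (h : ∀ x ∈ O, d x * fderiv ℂ G x a = fderiv ℂ G x (Y x)) (l : ℕ) :
    ∀ x ∈ O, d x * it a (l + 1) G x = fderiv ℂ (it a l G) x (Y x) := by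
  induction l with
  | zero =>
    intro x hx
    have e : it a 0 G = G := funext fun _ => rfl
    rw [it_succ hO hG hx, e, h x hx]
  | succ l ih =>
    intro x hx
    have e1 : (fun y => d y * it a (l + 1) G y) =ᶠ[𝓝 x] fun y => fderiv ℂ (it a l G) y (Y y) :=
      mem_of_superset (hO.mem_nhds hx) ih
    have e2 : (fun y => fderiv ℂ (it a l G) y a) =ᶠ[𝓝 x] it a (l + 1) G :=
      mem_of_superset (hO.mem_nhds hx) fun y hy => (it_succ hO hG hy a l).symm
    have e3 : fderiv ℂ (fun y => d y * it a (l + 1) G y) x a =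
        fderiv ℂ (fun y => fderiv ℂ (it a l G) y (Y y)) x a := by rw [e1.fderiv_eq]
    rw [comm hO (it_hol hO hG a l) hx (hY x hx).1 (hY x hx).2, e2.fderiv_eq,
      fderiv_fun_mul (hd x hx).1 ((it_hol hO hG a _).differentiableAt (hO.mem_nhds hx))] at e3
    rw [← e3, it_succ hO hG hx]
    simp [(hd x hx).2]

omit [FiniteDimensional ℂ V] in
theorem fd_const {W : Type} [NormedAddCommGroup W] [NormedSpace ℂ W] {U : Type}
    [NormedAddCommGroup U] [NormedSpace ℂ U] (L : V →L[ℂ] W) {f : W → U}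
    (hf : DifferentiableAt ℂ f (L x)) (h : L a = 0) :
    DifferentiableAt ℂ (fun y => f (L y)) x ∧ fderiv ℂ (fun y => f (L y)) x a = 0 := by
  have := hf.hasFDerivAt.comp x L.hasFDerivAt
  exact ⟨this.differentiableAt, by rw [show (fun y => f (L y)) = f ∘ L from rfl, this.fderiv]; simp [h]⟩

end gen

variable {n k : ℕ}

theorem lin (L : E k × (E n × E n) →L[ℂ] ℂ) (ζ : E k) :
    L (ζ, 0) = ∑ i, ζ i * L (Pi.single i 1, 0) := by
  have e : ((ζ, 0) : E k × (E n × E n)) = ∑ i, ζ i • (Pi.single i 1, 0) := by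
    rw [Prod.ext_iff, Prod.fst_sum, Prod.snd_sum]
    exact ⟨pi_eq_sum_univ' ζ, by simp⟩
  rw [e, map_sum]
  simp only [map_smul, smul_eq_mul]

theorem lin2 (L : E k × (E n × E n) →L[ℂ] ℂ) (ζ : E k) (v : Fin k → E n × E n) :
    L (0, ∑ i, ζ i • v i) = ∑ i, ζ i * L (0, v i) := by
  have e : ((0, ∑ i, ζ i • v i) : E k × (E n × E n)) = ∑ i, ζ i • (0, v i) := by
    rw [Prod.ext_iff, Prod.fst_sum, Prod.snd_sum]
    exact ⟨by simp, by simp⟩
  rw [e, map_sum]
  simp only [map_smul, smul_eq_mul]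

/-- Equality of slices gives equality of derivatives. -/
theorem slice {Q : E n × (E k × E n) → ℂ} {G : E k × (E n × E n) → ℂ} {ζ : E k} {w : E n × E n}
    (hQ : DifferentiableAt ℂ Q (w.1, (ζ, w.2))) (hG : DifferentiableAt ℂ G (0, w))
    (e : ∀ᶠ y in 𝓝 w, Q (y.1, (ζ, y.2)) = G (0, y)) (v v' : E n) :
    fderiv ℂ Q (w.1, (ζ, w.2)) (v, (0, v')) = fderiv ℂ G (0, w) (0, (v, v')) := by
  have h1 := hQ.hasFDerivAt.comp w (f := fun y : E n × E n => (y.1, (ζ, y.2)))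
    ((hasFDerivAt_fst (𝕜 := ℂ)).prodMk ((hasFDerivAt_const ζ w).prodMk hasFDerivAt_snd))
  have h2 := hG.hasFDerivAt.comp w (f := fun y : E n × E n => ((0 : E k), y))
    ((hasFDerivAt_const (0 : E k) w).prodMk (hasFDerivAt_id (𝕜 := ℂ) w))
  have h3 := congrArg (fun L : E n × E n →L[ℂ] ℂ => L (v, v'))
    ((h1.congr_of_eventuallyEq (f₁ := fun y => G (0, y)) (e.mono fun _ h => h.symm)).unique h2)
  simpa using h3

variable {c : E n} {R : ℝ} {δ : E n → ℂ} {N : Fin k → E n → E n} {m : Fin k → E n × E n → ℂ}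
  {Ψ : E k × (E n × E n) → ℂ} {z : E n}

theorem mk_mem {ε : ℝ} (hε : 0 < ε) {w : E n × E n} (hw : w ∈ ball (dg z) ε) :
    ((0, w) : E k × (E n × E n)) ∈ ball (0, dg z) ε := by
  rw [← ball_prod_same]; exact ⟨mem_ball_self hε, hw⟩

theorem snd_mem {ε : ℝ} {p : E k × (E n × E n)} (hp : p ∈ ball ((0 : E k), dg z) ε) :
    p.2 ∈ ball (dg z) ε := by
  rw [← ball_prod_same] at hp; exact hp.2

/-- The recursion for a seed, on a small ball. -/
theorem seed_rec (hδ : DifferentiableOn ℂ δ (ball c R))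
    (hN : ∀ i, DifferentiableOn ℂ (N i) (ball c R)) (hz : z ∈ ball c R) (h : Seed δ N m Ψ z)
    {S : Set (E k × (E n × E n))} (hS : S ∈ 𝓝 ((0 : E k), dg z)) :
    ∃ ε > 0, ball (dg z) ε ⊆ ball (dg c) R ∧ ball ((0 : E k), dg z) ε ⊆ S ∧
      DifferentiableOn ℂ Ψ (ball (0, dg z) ε) ∧ ∀ ζ : E k, ∀ w ∈ ball (dg z) ε,
        it (ζ, 0) 1 Ψ (0, w) = ∑ i, ζ i * m i w ∧ ∀ l, δ w.1 * it (ζ, 0) (l + 1) Ψ (0, w) =
          fderiv ℂ (it (ζ, 0) l Ψ) (0, w) (0, (∑ i, ζ i • N i w.1, 0)) := by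
  have h1 : ∀ᶠ p : E k × (E n × E n) in 𝓝 (0, dg z), p.2 ∈ ball (dg c) R ∧
      ∀ i, fderiv ℂ Ψ (0, p.2) (Pi.single i 1, 0) = m i p.2 :=
    (continuous_snd.tendsto ((0 : E k), dg z)).eventually
      (p := fun w => w ∈ ball (dg c) R ∧ ∀ i, fderiv ℂ Ψ (0, w) (Pi.single i 1, 0) = m i w)
      ((isOpen_ball.eventually_mem (PK.dg_mem_ball.2 hz)).and h.ini)
  obtain ⟨ε, hε, hb⟩ := Metric.mem_nhds_iff.1 (h1.and (h.hol.and (h.pde.and hS)))
  have hd : DifferentiableOn ℂ Ψ (ball (0, dg z) ε) := fun p hp =>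
    (hb hp).2.1.differentiableWithinAt
  refine ⟨ε, hε, fun w hw => (hb (mk_mem hε hw)).1.1, fun p hp => (hb hp).2.2.2, hd,
    fun ζ w hw => ⟨?_, fun l => ?_⟩⟩
  · rw [it_succ isOpen_ball hd (mk_mem hε hw), show it (ζ, 0) 0 Ψ = Ψ from rfl, lin]
    exact Finset.sum_congr rfl fun i _ => by rw [(hb (mk_mem hε hw)).1.2 i]
  · let L : E k × (E n × E n) →L[ℂ] E n :=
      (ContinuousLinearMap.fst ℂ _ _).comp (ContinuousLinearMap.snd ℂ _ _)
    have hm : ∀ p ∈ ball ((0 : E k), dg z) ε, ball c R ∈ 𝓝 (L p) := fun p hp =>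
      isOpen_ball.mem_nhds (PK.mem_ball_dg.1 (hb hp).1.1).1
    refine iter isOpen_ball hd (d := fun p => δ (L p))
      (Y := fun p => (fun y : E n => ((0 : E k), (∑ i, ζ i • N i y, (0 : E n)))) (L p))
      (fun p hp => fd_const L (hδ.differentiableAt (hm p hp)) rfl)
      (fun p hp => fd_const L (f := fun y : E n => ((0 : E k), (∑ i, ζ i • N i y, (0 : E n))))
        ((differentiableAt_const _).prodMk ((DifferentiableAt.fun_sum
        fun i _ => ((hN i).differentiableAt (hm p hp)).const_smul (ζ i)).prodMk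
          (differentiableAt_const _))) rfl) (fun p hp => ?_) l _ (mk_mem hε hw)
    have e : ((∑ i, ζ i • N i (L p), 0) : E n × E n) = ∑ i, ζ i • (N i (L p), 0) := by
      rw [Prod.ext_iff, Prod.fst_sum, Prod.snd_sum]
      exact ⟨by simp, by simp⟩
    simp only
    rw [e, lin2, lin, Finset.mul_sum]
    exact Finset.sum_congr rfl fun i _ => by rw [mul_left_comm]; exact congrArg _ ((hb hp).2.2.1 i)

/-- The domain of the coefficients. -/
def Dm (k : ℕ) (c : E n) (R : ℝ) : Set (E n × (E k × E n)) :=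
  ball c R ×ˢ (univ ×ˢ ball (star c) R)

theorem dm_open : IsOpen (Dm k c R) := isOpen_ball.prod (isOpen_univ.prod isOpen_ball)

theorem dm_mem {w : E n × E n} (hw : w ∈ ball (dg c) R) (ζ : E k) :
    (w.1, (ζ, w.2)) ∈ Dm k c R := ⟨(PK.mem_ball_dg.1 hw).1, mem_univ _, (PK.mem_ball_dg.1 hw).2⟩

/-- The coefficients of the series. -/
structure Co (c : E n) (R : ℝ) (δ : E n → ℂ) (N : Fin k → E n → E n)
    (m : Fin k → E n × E n → ℂ) (Q : ℕ → E n × (E k × E n) → ℂ) : Prop where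
  hol : ∀ l, DifferentiableOn ℂ (Q l) (Dm k c R)
  ini : ∀ p, Q 0 p = ∑ i, p.2.1 i * m i (p.1, p.2.2)
  rc : ∀ l, ∀ p ∈ Dm k c R, fderiv ℂ (Q l) p (∑ i, p.2.1 i • N i p.1, 0) = δ p.1 * Q (l + 1) p

theorem co_ex (hδ : DifferentiableOn ℂ δ (ball c R))
    (hN : ∀ i, DifferentiableOn ℂ (N i) (ball c R))
    (hm : ∀ i, DifferentiableOn ℂ (m i) (ball (dg c) R)) (hz : z ∈ ball c R) (h0 : δ z ≠ 0)
    (h : Seed δ N m Ψ z) (hD : Dual Ψ z) : ∃ Q, Co c R δ N m Q := by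
  obtain ⟨Y, hY, hp⟩ := hD
  have hY' : ∀ᶠ p : E k × (E n × E n) in 𝓝 (0, dg z), ∀ i, DifferentiableAt ℂ (Y i) p.2.2 :=
    ((continuous_snd.comp continuous_snd).tendsto _).eventually (eventually_all.2 hY)
  obtain ⟨ε, hε, hs, hS, hd, hr⟩ := seed_rec hδ hN hz h (hp.and hY')
  have hu : ball (star z) ε ⊆ ball (star c) R := fun u hu =>
    (PK.mk_mem_ball.1 (hs (PK.mk_mem_ball.2 ⟨mem_ball_self hε, hu⟩))).2
  have dual : ∀ ζ : E k, ∀ l, ∀ w ∈ ball (dg z) ε, it (ζ, 0) (l + 1) Ψ (0, w) =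
      fderiv ℂ (it (ζ, 0) l Ψ) (0, w) (0, (0, ∑ i, ζ i • Y i w.2)) := by
    intro ζ l w hw
    let L : E k × (E n × E n) →L[ℂ] E n :=
      (ContinuousLinearMap.snd ℂ _ _).comp (ContinuousLinearMap.snd ℂ _ _)
    have := iter isOpen_ball hd (a := (ζ, 0)) (d := fun _ => 1)
      (Y := fun p => (fun y : E n => ((0 : E k), ((0 : E n), ∑ i, ζ i • Y i y))) (L p))
      (fun p _ => ⟨differentiableAt_const _, by simp⟩)
      (fun p hp => fd_const L (f := fun y : E n => ((0 : E k), ((0 : E n), ∑ i, ζ i • Y i y)))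
        ((differentiableAt_const _).prodMk ((differentiableAt_const _).prodMk
        (DifferentiableAt.fun_sum fun i _ => ((hS hp).2 i).const_smul (ζ i)))) rfl)
      (fun p hp => ?_) l _ (mk_mem hε hw)
    · exact (one_mul _).symm.trans this
    · have e : ((0, ∑ i, ζ i • Y i (L p)) : E n × E n) = ∑ i, ζ i • (0, Y i (L p)) := by
        rw [Prod.ext_iff, Prod.fst_sum, Prod.snd_sum]
        exact ⟨by simp, by simp⟩
      simp only
      rw [e, lin2, lin, one_mul]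
      exact Finset.sum_congr rfl fun i _ => congrArg _ ((hS hp).1 i)
  let P : ℕ → (E n × (E k × E n) → ℂ) → Prop := fun l Q => DifferentiableOn ℂ Q (Dm k c R) ∧
    ∀ ζ, ∀ w ∈ ball (dg z) ε, Q (w.1, (ζ, w.2)) = it (ζ, 0) (l + 1) Ψ (0, w)
  have step : ∀ l Q, P l Q → ∃ Q', P (l + 1) Q' ∧
      ∀ p ∈ Dm k c R, fderiv ℂ Q p (∑ i, p.2.1 i • N i p.1, 0) = δ p.1 * Q' p := by
    rintro l Q ⟨hQ, hE⟩
    have hf := H85.differentiableOn_fderiv dm_open hQ
    have sub : ball c R ×ˢ ((univ : Set (E k)) ×ˢ ball (star z) ε) ⊆ Dm k c R :=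
      prod_mono_right (prod_mono_right hu)
    have a1 : DifferentiableOn ℂ (fun p : E n × (E k × E n) =>
        fderiv ℂ Q p (∑ i, p.2.1 i • N i p.1, 0)) (Dm k c R) := by
      refine hf.clm_apply (DifferentiableOn.prodMk (DifferentiableOn.fun_sum fun i _ p hp => ?_)
        (differentiableOn_const _))
      exact (DifferentiableAt.smul (c := fun p : E n × (E k × E n) => p.2.1 i) (by fun_prop)
        (((hN i).differentiableAt (isOpen_ball.mem_nhds hp.1)).comp p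
          differentiableAt_fst)).differentiableWithinAt
    have a2 : DifferentiableOn ℂ (fun p : E n × (E k × E n) =>
        fderiv ℂ Q p (0, (0, ∑ i, p.2.1 i • Y i p.2.2)))
        (ball c R ×ˢ (univ ×ˢ ball (star z) ε)) := by
      refine (hf.mono sub).clm_apply ((differentiableOn_const _).prodMk
        ((differentiableOn_const _).prodMk (DifferentiableOn.fun_sum fun i _ p hp => ?_)))
      exact (DifferentiableAt.smul (c := fun p : E n × (E k × E n) => p.2.1 i) (by fun_prop)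
        (((hS (mk_mem hε (PK.mk_mem_ball.2 ⟨mem_ball_self hε, hp.2.2⟩))).2 i).comp p
          (f := fun p : E n × (E k × E n) => p.2.2) (by fun_prop))).differentiableWithinAt
    have sl : ∀ ζ, ∀ w ∈ ball (dg z) ε, ∀ v v', fderiv ℂ Q (w.1, (ζ, w.2)) (v, (0, v')) =
        fderiv ℂ (it (ζ, 0) (l + 1) Ψ) (0, w) (0, (v, v')) := fun ζ w hw =>
      slice (hQ.differentiableAt (dm_open.mem_nhds (dm_mem (hs hw) ζ)))
        ((it_hol isOpen_ball hd _ _).differentiableAt (isOpen_ball.mem_nhds (mk_mem hε hw)))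
        (mem_of_superset (isOpen_ball.mem_nhds hw) (hE ζ))
    have op : IsOpen (ball c R ×ˢ ((univ : Set (E k)) ×ˢ ball (star z) ε)) :=
      isOpen_ball.prod (isOpen_univ.prod isOpen_ball)
    have a3 := H85.eqOn_zero_of_preconnected op
      ((convex_ball _ _).prod (convex_univ.prod (convex_ball _ _))).isPreconnected
      ((a1.mono sub).sub ((hδ.comp differentiableOn_fst fun p hp => hp.1).mul a2))
      (y := (z, (0, star z))) ⟨hz, mem_univ _, mem_ball_self hε⟩ (by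
        filter_upwards [(isOpen_ball.prod (isOpen_univ.prod isOpen_ball)).mem_nhds
          (show (z, ((0 : E k), star z)) ∈ ball z ε ×ˢ (univ ×ˢ ball (star z) ε) from
            ⟨mem_ball_self hε, mem_univ _, mem_ball_self hε⟩)] with p hp
        have hw : (p.1, p.2.2) ∈ ball (dg z) ε := PK.mk_mem_ball.2 ⟨hp.1, hp.2.2⟩
        have b1 := (sl p.2.1 _ hw _ 0).trans ((hr p.2.1 _ hw).2 (l + 1)).symm
        have b2 := (sl p.2.1 _ hw 0 _).trans (dual p.2.1 (l + 1) _ hw).symm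
        exact sub_eq_zero.2 (b1.trans (congrArg _ b2.symm)))
    obtain ⟨Q', q1, q2, q3⟩ := st_XP _ _ (ball c R) (univ ×ˢ ball (star c) R)
      (univ ×ˢ ball (star z) ε) δ _ _ isOpen_ball (convex_ball _ _).isPreconnected
      (isOpen_univ.prod isOpen_ball) (convex_univ.prod (convex_ball _ _)).isPreconnected
      (isOpen_univ.prod isOpen_ball) ⟨(0, star z), mem_univ _, mem_ball_self hε⟩
      (prod_mono_right hu) hδ ⟨z, hz, h0⟩ a1 a2
      fun y hy u hu => sub_eq_zero.1 (a3 (show (y, u) ∈ _ from ⟨hy, hu⟩))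
    refine ⟨Q', ⟨q1, fun ζ w hw => ?_⟩, fun p hp => q2 p.1 hp.1 p.2 hp.2⟩
    rw [q3 _ (PK.mem_ball_dg.1 (hs hw)).1 (ζ, w.2) ⟨mem_univ _, (PK.mem_ball_dg.1 hw).2⟩]
    exact (sl ζ w hw 0 _).trans (dual ζ (l + 1) w hw).symm
  choose nx h1 h2 using step
  have h3 : P 0 fun p => ∑ i, p.2.1 i * m i (p.1, p.2.2) :=
    ⟨DifferentiableOn.fun_sum fun i _ => DifferentiableOn.mul (by fun_prop)
      ((hm i).comp (by fun_prop) fun p hp => PK.mk_mem_ball.2 ⟨hp.1, hp.2.2⟩),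
      fun ζ w hw => (hr ζ w hw).1.symm⟩
  let q : ∀ l : ℕ, {Q // P l Q} := fun l =>
    Nat.rec ⟨_, h3⟩ (fun l r => ⟨nx l r.1 r.2, h1 l r.1 r.2⟩) l
  exact ⟨fun l => (q l).1, fun l => (q l).2.1, fun _ => rfl, fun l => h2 l (q l).1 (q l).2⟩

variable {Q : ℕ → E n × (E k × E n) → ℂ}

theorem co_eq (hδ : DifferentiableOn ℂ δ (ball c R))
    (hN : ∀ i, DifferentiableOn ℂ (N i) (ball c R)) (h0 : ∀ y ∈ ball c R, ∃ᶠ w in 𝓝 y, δ w ≠ 0)
    (hQ : Co c R δ N m Q) (hz : z ∈ ball c R) (h : Seed δ N m Ψ z) :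
    ∃ ε > 0, DifferentiableOn ℂ Ψ (ball (0, dg z) ε) ∧ ∀ (ζ : E k) l, ∀ w ∈ ball (dg z) ε,
      Q l (w.1, (ζ, w.2)) = it (ζ, 0) (l + 1) Ψ (0, w) := by
  obtain ⟨ε, hε, hs, -, hd, hr⟩ := seed_rec hδ hN hz h univ_mem
  refine ⟨ε, hε, hd, fun ζ l => ?_⟩
  induction l with
  | zero => exact fun w hw => (hQ.ini _).trans (hr ζ w hw).1.symm
  | succ l ih =>
    intro w hw
    have d1 := fun l w hw => (hQ.hol l).differentiableAt (dm_open.mem_nhds (dm_mem (hs (a := w) hw) ζ))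
    have d2 := fun l w hw => (it_hol isOpen_ball hd (ζ, 0) l).differentiableAt
      (isOpen_ball.mem_nhds (mk_mem (w := w) hε hw))
    have t : Tendsto (fun y : E n => (y, w.2)) (𝓝 w.1) (𝓝 w) :=
      (continuous_id.prodMk continuous_const).tendsto w.1
    refine tendsto_nhds_unique_of_frequently_eq (l := 𝓝 w.1)
      ((d1 (l + 1) w hw).continuousAt.tendsto.comp
        ((continuous_id.prodMk continuous_const).tendsto w.1))
      ((d2 (l + 2) w hw).continuousAt.tendsto.comp (tendsto_const_nhds.prodMk_nhds t)) ?_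
    refine ((h0 _ (PK.mem_ball_dg.1 (hs hw)).1).and_eventually
      (t.eventually (isOpen_ball.mem_nhds hw))).mono fun y hy => mul_left_cancel₀ hy.1 ?_
    exact ((hQ.rc l _ (dm_mem (hs hy.2) ζ)).symm.trans (slice (d1 l _ hy.2) (d2 (l + 1) _ hy.2)
      (mem_of_superset (isOpen_ball.mem_nhds hy.2) ih) _ 0)).trans
        ((hr ζ _ hy.2).2 (l + 1)).symm

theorem bd_fin {X F : Type} [TopologicalSpace X] [NormedAddCommGroup F] {K : Set X}
    (hK : IsCompact K) {f : Fin k → X → F} (hf : ∀ i, ContinuousOn (f i) K) :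
    ∃ C > 0, ∀ i, ∀ x ∈ K, ‖f i x‖ ≤ C := by
  obtain ⟨C, hC⟩ := hK.exists_bound_of_continuousOn (f := fun x i => f i x) (continuousOn_pi.2 hf)
  exact ⟨max C 1, by positivity, fun i x hx =>
    ((norm_le_pi_norm (fun i => f i x) i).trans (hC x hx)).trans (le_max_left _ _)⟩

theorem sum_le {F : Type} [NormedAddCommGroup F] [NormedSpace ℂ F] (ζ : E k) {v : Fin k → F}
    {C : ℝ} (h : ∀ i, ‖v i‖ ≤ C) : ‖∑ i, ζ i • v i‖ ≤ k * C * ‖ζ‖ := by
  refine (norm_sum_le_of_le _ (n := fun _ => C * ‖ζ‖) fun i _ => ?_).trans_eq (by simp [mul_assoc])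
  rw [norm_smul, mul_comm]
  exact mul_le_mul (h i) (norm_le_pi_norm ζ i) (norm_nonneg _) ((norm_nonneg _).trans (h i))

theorem co_bd {R' : ℝ} (hR : R' < R) (hδ : DifferentiableOn ℂ δ (ball c R))
    (hN : ∀ i, DifferentiableOn ℂ (N i) (ball c R))
    (hm : ∀ i, DifferentiableOn ℂ (m i) (ball (dg c) R))
    (h0 : ∀ y ∈ ball c R, ∃ᶠ w in 𝓝 y, δ w ≠ 0) (hQ : Co c R δ N m Q) :
    ∃ C > 0, ∀ y ∈ closedBall c R', ∀ u ∈ ball (star c) R', ∀ (ζ : E k) l,
      ‖Q l (y, (ζ, u))‖ ≤ l ! * (C * ‖ζ‖) ^ (l + 1) := by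
  set S := (R' + R) / 2 with hS
  have h1 : R' < S := by linarith
  have h2 : S < R := by linarith
  obtain ⟨A, hA, bA⟩ := bd_fin (isCompact_closedBall c S) fun i =>
    (hN i).continuousOn.mono (closedBall_subset_ball h2)
  obtain ⟨B, hB, bB⟩ := bd_fin (isCompact_closedBall (dg c) S) fun i =>
    (hm i).continuousOn.mono (closedBall_subset_ball h2)
  refine (isCompact_closedBall c R').induction_on (p := fun K => ∃ C > 0, ∀ y ∈ K,
    ∀ u ∈ ball (star c) R', ∀ (ζ : E k) l, ‖Q l (y, (ζ, u))‖ ≤ l ! * (C * ‖ζ‖) ^ (l + 1))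
    ⟨1, one_pos, fun _ h => h.elim⟩ (fun s t hst ⟨C, hC, h⟩ => ⟨C, hC, fun y hy => h y (hst hy)⟩)
    (fun s t ⟨C, hC, h⟩ ⟨C', hC', h'⟩ => ⟨max C C', by positivity, fun y hy u hu ζ l => ?_⟩)
    fun x hx => ?_
  · rcases hy with hy | hy
    · exact (h y hy u hu ζ l).trans (by gcongr; exact le_max_left _ _)
    · exact (h' y hy u hu ζ l).trans (by gcongr; exact le_max_right _ _)
  have hx' : x ∈ ball c S := closedBall_subset_ball h1 hx
  obtain ⟨e, r, κ, hr, hκ, hc⟩ := (st_XPM _).1 (ball c S) δ x isOpen_ball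
    (hδ.mono (ball_subset_ball h2.le)) hx' (h0 x (ball_subset_ball h2.le hx'))
  refine ⟨ball x (r / 2), mem_nhdsWithin_of_mem_nhds (ball_mem_nhds _ (by linarith)),
    max (k * B + 1) (12 * (κ⁻¹ * (k * A)) / r), by positivity, fun y hy u hu ζ l => ?_⟩
  have hu' : u ∈ ball (star c) R := ball_subset_ball hR.le hu
  have dm : ∀ w ∈ ball c S, (w, (ζ, u)) ∈ Dm k c R := fun w hw =>
    ⟨ball_subset_ball h2.le hw, mem_univ _, hu'⟩
  have hol : ∀ j, DifferentiableOn ℂ (fun w => Q j (w, (ζ, u))) (ball c S) := fun j =>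
    (hQ.hol j).comp (by fun_prop) dm
  refine ((st_XPM _).2 (ball c S) (fun w => Q l (w, (ζ, u))) y e isOpen_ball (hol l)
    (hc y (ball_subset_ball (by linarith) hy)).1).2 _ fun t ht => ?_
  have nb : ∀ w ∈ ball (y + t • e) (r / 2), w ∈ ball c S ∧ κ ≤ ‖δ w‖ := by
    intro w hw
    have h3 : w - t • e ∈ ball x r := by
      rw [mem_ball_iff_norm] at hw hy ⊢
      have := norm_add_le (w - (y + t • e)) (y - x)
      rw [show w - (y + t • e) + (y - x) = w - t • e - x by abel] at this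
      linarith
    have h4 := hc _ h3
    have h5 := h4.1 t (sphere_subset_closedBall ht)
    have h6 := h4.2 t ht
    rw [sub_add_cancel] at h5 h6
    exact ⟨h5, h6⟩
  have h7 := st_LIE _ _ (y + t • e) (r / 2) (κ⁻¹ * (k * A * ‖ζ‖)) (k * B * ‖ζ‖)
    (fun w => (δ w)⁻¹ • ∑ i, ζ i • N i w) (fun j w => Q j (w, (ζ, u))) (by linarith)
    (fun w hw => ?_) (fun j => (hol j).mono fun w hw => (nb w hw).1) (fun w hw => ?_)
    (fun j w hw => ?_) l
  · refine h7.trans ?_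
    rw [pow_succ, mul_right_comm, mul_comm _ (l ! : ℝ), mul_comm (k * B * ‖ζ‖)]
    gcongr
    · rw [show 6 * (κ⁻¹ * (k * A * ‖ζ‖)) / (r / 2) = 12 * (κ⁻¹ * (k * A)) / r * ‖ζ‖ by
        field_simp; ring]
      gcongr
      exact le_max_right _ _
    · exact (le_add_of_nonneg_right zero_le_one).trans (le_max_left _ _)
  · rw [norm_smul, norm_inv]
    gcongr
    · exact (nb w hw).2
    · exact sum_le ζ fun i => bA i w (ball_subset_closedBall (nb w hw).1)
  · rw [hQ.ini]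
    exact sum_le ζ (v := fun i => m i (w, u)) fun i => bB i _ (ball_subset_closedBall
      (PK.mk_mem_ball.2 ⟨(nb w hw).1, ball_subset_ball h1.le hu⟩))
  · have h8 : δ w ≠ 0 := norm_pos_iff.1 (hκ.trans_le (nb w hw).2)
    have h9 := ((hQ.hol j).differentiableAt (dm_open.mem_nhds (dm w (nb w hw).1))).hasFDerivAt.comp w
      (hasFDerivAt_prodMk_left (𝕜 := ℂ) w (ζ, u))
    rw [show (fun w => Q j (w, (ζ, u))) = Q j ∘ fun w => (w, (ζ, u)) from rfl, h9.fderiv, map_smul]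
    have h10 := hQ.rc j _ (dm w (nb w hw).1)
    simp only [ContinuousLinearMap.comp_apply, ContinuousLinearMap.inl_apply, smul_eq_mul] at h10 ⊢
    rw [h10, inv_mul_cancel_left₀ h8]

end SER

open SER in
theorem st_SER : St_SER := by
  intro n k c R R' δ N m Ψ₀ z₀ hR hδ hN hm hz h0 hS hD
  have fr := (st_CONN _ _ δ isOpen_ball (convex_ball c R).isPreconnected hδ ⟨z₀, hz, h0⟩).2.2
  obtain ⟨Q, hQ⟩ := co_ex hδ hN hm hz h0 hS hD
  obtain ⟨C, hC, hb⟩ := co_bd hR hδ hN hm fr hQ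
  let T : ℕ → E k × (E n × E n) → ℂ := fun l p => (((l + 1)! : ℂ)⁻¹) • Q l (p.2.1, (p.1, p.2.2))
  have b1 : ∀ l, ∀ p : E k × (E n × E n), p.2 ∈ ball (dg c) R' → ‖T l p‖ ≤ (C * ‖p.1‖) ^ (l + 1) := by
    intro l p hp
    have h1 := hb _ (ball_subset_closedBall (PK.mem_ball_dg.1 hp).1) _ (PK.mem_ball_dg.1 hp).2 p.1 l
    have h2 : (l ! : ℝ) ≤ (l + 1)! := by exact_mod_cast Nat.factorial_le l.le_succ
    have h3 : (0 : ℝ) < (l + 1)! := by exact_mod_cast (l + 1).factorial_pos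
    rw [norm_smul, norm_inv, Complex.norm_natCast, inv_mul_le_iff₀ h3]
    exact h1.trans (by gcongr)
  have b2 : ∀ p ∈ ball (0 : E k) (2 * C)⁻¹ ×ˢ ball (dg c) R', ∀ l, ‖T l p‖ ≤ 1 / 2 / 2 ^ l := by
    intro p hp l
    have h1 : C * ‖p.1‖ ≤ 1 / 2 := by
      have := mul_le_mul_of_nonneg_left (mem_ball_zero_iff.1 hp.1).le hC.le
      rwa [show C * (2 * C)⁻¹ = 1 / 2 by field_simp] at this
    refine (b1 l p hp.2).trans ((pow_le_pow_left₀ (by positivity) h1 _).trans_eq ?_)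
    rw [pow_succ', one_div_pow, mul_one_div]
  have hg := hasSum_geometric_two' (1 : ℝ)
  have hT : ∀ l, DifferentiableOn ℂ (T l) (ball (0 : E k) (2 * C)⁻¹ ×ˢ ball (dg c) R') := by
    intro l p hp
    have := ((hQ.hol l).differentiableAt (dm_open.mem_nhds (dm_mem (ball_subset_ball hR.le hp.2)
      p.1))).comp p (f := fun p : E k × (E n × E n) => (p.2.1, (p.1, p.2.2))) (by fun_prop)
    exact (this.const_smul (((l + 1)! : ℂ)⁻¹)).differentiableWithinAt
  refine ⟨(2 * C)⁻¹, by positivity, fun p => ∑' l, T l p, ?_,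
    fun p hp => tsum_of_norm_bounded hg (b2 p hp), fun w hw => ?_, fun Ψ z hz' h => ?_⟩
  · refine (H85.differentiableOn_of_tendsto (l := atTop)
      (f := fun L p => ∑ l ∈ Finset.range L, T l p) (isOpen_ball.prod isOpen_ball)
      (.of_forall fun L => DifferentiableOn.fun_sum fun l _ => hT l)
      (fun p hp => ⟨1, _, (isOpen_ball.prod isOpen_ball).mem_nhds hp, .of_forall fun L y hy => ?_⟩)
      fun p hp => (Summable.of_norm_bounded hg.summable (b2 p hp)).hasSum.tendsto_sum_nat).1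
    exact (norm_sum_le_of_le _ fun l _ => b2 y hy l).trans
      (sum_le_hasSum _ (fun _ _ => by positivity) hg)
  · have : ∀ l, T l (0, w) = 0 := fun l => by simpa using b1 l (0, w) hw
    simp only [this, tsum_zero]
  · obtain ⟨ε, hε, hd, he⟩ := co_eq hδ hN fr hQ (ball_subset_ball hR.le hz') h
    filter_upwards [ball_mem_nhds _ (half_pos hε)] with p hp
    have hp' := hp
    rw [← ball_prod_same] at hp'
    have h1 : ball ((0, p.2) : E k × (E n × E n)) (ε / 2) ⊆ ball (0, dg z) ε :=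
      ball_subset_ball' (by linarith [mem_ball.1 (mk_mem (k := k) (half_pos hε) hp'.2)])
    have h2 := ANB.taylor (hd.mono h1) (y := (p.1, 0)) (by simpa using hp'.1)
    have h3 := (hasSum_nat_add_iff' 1).2 h2
    have h4 : ∀ l, T l p = (((l + 1)! : ℂ)⁻¹) • iteratedFDeriv ℂ (l + 1) Ψ (0, p.2) fun _ => (p.1, 0) :=
      fun l => congrArg (fun x : ℂ => (((l + 1)! : ℂ)⁻¹) • x)
        (he p.1 l p.2 (ball_subset_ball (half_le_self hε.le) hp'.2))
    simp only [h4]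
    rw [h3.tsum_eq]
    simp

end Pool.Agent.Lib.RAD
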