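import Pool.Agent.Lib.RYD.Blue
import Pool.Agent.Lib.RY.K_At

/-! Project ra2, step D: the measure carried by the branches is invariant under translations. -/

open scoped Classical Topology ContDiff ComplexOrder Matrix
open Set MeasureTheory Complex Metric Filter

noncomputable section

namespace Pool.Agent.Lib.RAD

open Pool.Agent.Lib.SV (E)
open Pool.Agent.Lib.HS32 Pool.Agent.Lib.RA

namespace ZR1

variable {n r : ℕ}

/-- The projection that forgets one coordinate. -/
def pl (l : Fin r) : Mat r := Matrix.diagonal fun a => if a = l then 0 else 1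

theorem pl_psd (l : Fin r) : (pl l).PosSemidef :=
  Matrix.posSemidef_diagonal_iff.2 fun a => by split_ifs <;> simp

theorem pl_rank (l : Fin r) : (pl l).rank ≤ r - 1 := by
  rw [pl, Matrix.rank_diagonal, Fintype.card_subtype]
  refine (Finset.card_le_card (t := Finset.univ.erase l) fun a ha => ?_).trans (by simp)
  rw [Finset.mem_filter] at ha
  exact Finset.mem_erase.2 ⟨fun h => ha.2 (if_pos h), ha.1⟩

theorem alg {G : Mat n} (hG : G.PosDef) (J : Matrix (Fin r) (Fin n) ℂ) (l : Fin r) (p : E r) :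
    (RA28.topS (r - 1) G (Jᴴ * pl l * J) *
      Matrix.of fun i j => star (J l i) * ∑ a, p a * J a j).trace / G.det =
      p l * RA28.topA r G (Jᴴ * (1 : Mat r) * J) := by
  have t1 := RA28.top hG ((pl_psd l).conjTranspose_mul_mul_same J)
    (((Matrix.rank_mul_le_left _ _).trans (Matrix.rank_mul_le_right _ _)).trans (pl_rank l))
  have t2 := RA28.top hG ((Matrix.PosSemidef.one (n := Fin r) (R := ℂ)).conjTranspose_mul_mul_same J)
    (((Matrix.rank_mul_le_left _ _).trans (Matrix.rank_mul_le_right _ _)).trans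
      (Matrix.rank_le_width _))
  set S := RA28.topS (r - 1) G (Jᴴ * pl l * J)
  have e1 : (pl l * J)ᴴ * (pl l * J) = Jᴴ * pl l * J := by
    rw [Matrix.conjTranspose_mul, (pl_psd l).1.eq, Matrix.mul_assoc, ← Matrix.mul_assoc (pl l),
      Matrix.mul_assoc Jᴴ]
    congr 2
    rw [pl, Matrix.diagonal_mul_diagonal]
    congr 1
    funext a
    split_ifs <;> simp
  have e2 : pl l * J * S = 0 := by
    rw [← Matrix.conjTranspose_mul_self_mul_eq_zero, e1]
    exact t1.bs
  have e3 : ∀ a, a ≠ l → ∀ i, ∑ j, J a j * S j i = 0 := fun a ha i => by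
    have := congrFun (congrFun e2 a) i
    rw [Matrix.mul_assoc, pl, Matrix.diagonal_mul, if_neg ha, one_mul] at this
    exact this
  have e4 : Jᴴ * pl l * J + Matrix.vecMulVec (star (J l)) (star (star (J l))) =
      Jᴴ * (1 : Mat r) * J := by
    ext i j
    rw [Matrix.mul_one, Matrix.add_apply, Matrix.mul_apply, Matrix.mul_apply, pl]
    simp only [Matrix.vecMulVec_apply, star_star, Pi.star_apply, Matrix.mul_diagonal,
      Matrix.conjTranspose_apply]
    rw [← Finset.add_sum_erase _ _ (Finset.mem_univ l),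
      ← Finset.add_sum_erase _ (fun a => star (J a i) * J a j) (Finset.mem_univ l), if_pos rfl,
      mul_zero, zero_mul, zero_add, add_comm]
    congr 1
    exact Finset.sum_congr rfl fun a ha => by rw [if_neg (Finset.mem_erase.1 ha).1, mul_one]
  have e5 := t1.one (star (J l))
  rw [e4, Nat.sub_add_cancel l.pos, t2.dA, star_star] at e5
  have e6 : (S * Matrix.of fun i j => star (J l i) * ∑ a, p a * J a j).trace =
      ∑ a, p a * ∑ i, (∑ j, J a j * S j i) * star (J l i) := by
    simp only [Matrix.trace, Matrix.diag_apply, Matrix.mul_apply, Matrix.of_apply, Finset.mul_sum,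
      Finset.sum_mul]
    rw [Finset.sum_comm]
    conv_rhs => rw [Finset.sum_comm]
    refine Finset.sum_congr rfl fun i _ => ?_
    rw [Finset.sum_comm]
    exact Finset.sum_congr rfl fun a _ => Finset.sum_congr rfl fun j _ => by ring
  rw [e6, Finset.sum_eq_single l (fun a _ ha => by simp [e3 a ha]) (by simp),
    div_eq_iff hG.det_pos.ne', mul_assoc, ← e5, Matrix.dotProduct_mulVec]
  rfl

theorem loc (hC : St_CH2) {H : E n → E r} {z : E n} (h : HolN H z) {ψ : E r → ℝ}
    (hψ : ContDiff ℝ ∞ ψ) (l : Fin r) :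
    ContDiffAt ℝ ∞ (fun w => star (H w l)) z ∧ ContDiffAt ℝ ∞ (fun w => (ψ (H w) : ℂ)) z ∧
    hess (fun w => star (H w l)) z = 0 ∧
    dd (fun w => star (H w l)) (fun w => (ψ (H w) : ℂ)) z = Matrix.of fun i j =>
      star (jr H z l i) * ∑ a, dz a (fun t => (ψ t : ℂ)) (H z) * jr H z a j := by
  obtain ⟨-, -, -, -, -, c6, c7⟩ := hC n r H z h
  have h1 : HolN (fun w => H w l) z := h.mono fun w hw => differentiableAt_pi.1 hw l
  obtain ⟨-, a2, a3⟩ := mHOL n (fun w => H w l) z
  obtain ⟨a4, -, a5, -⟩ := a3 h1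
  have s := cd_ofReal (z := H z) hψ.contDiffAt
  refine ⟨cd_star a4, (c7 _ s).1, by rw [hess_star a4, a5, Matrix.conjTranspose_zero], ?_⟩
  ext i j
  rw [dd_apply, dzb_star (cd_diff a4), a2 h1.self_of_nhds, Matrix.of_apply,
    ← (c6 _ (cd_diff s) j).1, fderiv_apply h.self_of_nhds]
  rfl

theorem fd_re {ψ : E r → ℝ} (hψ : ContDiff ℝ ∞ ψ) (t v : E r) :
    fderiv ℝ ψ t v = ∑ l, 2 * (v l * dz l (fun t => (ψ t : ℂ)) t).re := by
  have s := cd_diff (cd_ofReal (z := t) hψ.contDiffAt)
  rw [← ofReal_re (fderiv ℝ ψ t v), ← fderiv_ofReal (cd_diff hψ.contDiffAt), fderiv_eq_sum, re_sum]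
  refine Finset.sum_congr rfl fun l _ => ?_
  rw [← star_dz_ofReal s, ← star_mul', add_re, star_def, conj_re, mul_comm (v l)]
  ring

end ZR1

open ZR1 in
theorem st_ZR1 (hC : St_CH2) (hT : St_TOP) (hB : St_BR) : St_ZR1 := by
  intro n k j m N M _ G Q K K' O H χ ψ v hG hA hψ hi hK
  have hH : ∀ i, ∀ x ∈ O i, HolAt M (H i) x := fun i x hx => (hA.q i x hx).2.1
  have key : ∀ l : Fin (k + j), (∀ i, Integrable (fun x => (χ i x : ℂ) *
      (dz l (fun t => (ψ t : ℂ)) (H i x) * tD M (k + j) G (pb M (H i) 1) x)) (M.mu G)) ∧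
      ∑ i, ∫ x, (χ i x : ℂ) * (dz l (fun t => (ψ t : ℂ)) (H i x) *
        tD M (k + j) G (pb M (H i) 1) x) ∂M.mu G = 0 := by
    intro l
    have b := hB n k j m N M G Q K K' O H χ (fun i => tA M (k + j - 1) G (pb M (H i) (pl l)))
      (fun i x => star (H i x l)) (fun i x => ψ (H i x)) hG.toMet hA (fun i => by
        obtain ⟨t1, t2, -⟩ := hT n (k + j) (k + j - 1) M G (O i) hG (hA.op i)
        obtain ⟨t3, t4⟩ := t2 (H i) (pl l) (hH i) (pl_psd l)
        exact (t1 _ t3 fun x hx e he hxe => ⟨(t4 x hx e he hxe).1.1, (t4 x hx e he hxe).2.1⟩).1)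
      (fun i x hx => ⟨fun e he hxe => (loc hC (hH i x hx e he hxe) hψ l).1,
        fun e he hxe => (loc hC (hH i x hx e he hxe) hψ l).2.1,
        fun h => hK _ fun h0 => h (by rw [h0, ofReal_zero])⟩)
      (fun i i' x hx hx' ⟨a, ha⟩ => ⟨fun e he hxe => ?_, by rw [ha.self_of_nhds, hi],
        star ((I • io j a) l), ha.mono fun y hy => by rw [hy, Pi.add_apply, star_add]⟩)
    · have e : ∀ i x, (χ i x : ℂ) * grn M G (tA M (k + j - 1) G (pb M (H i) (pl l)))
          (fun x => star (H i x l)) (fun x => ψ (H i x)) x = (χ i x : ℂ) *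
          (dz l (fun t => (ψ t : ℂ)) (H i x) * tD M (k + j) G (pb M (H i) 1) x) := fun i x => by
        by_cases h0 : χ i x = 0
        · simp [h0]
        obtain ⟨-, -, l3, l4⟩ := loc hC (KA.at_ch (hH i x (hA.supp i (subset_tsupport _ h0)))) hψ l
        have := alg (hG.toMet.ev_pos x) (jr (H i ∘ (M.ch x).symm) (M.ch x x)) l
          fun a => dz a (fun t => (ψ t : ℂ)) ((H i ∘ (M.ch x).symm) (M.ch x x))
        rw [← l4, Function.comp_apply, (M.ch x).left_inv (Mf.mem_ch x)] at this
        congr 1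
        refine Eq.trans ?_ this
        have l5 : hess ((fun x => star (H i x l)) ∘ (M.ch x).symm) (M.ch x x) = 0 := l3
        simp only [grn, Mf.ev, l5, smul_zero, add_zero]
        rfl
      simpa only [e] using b
    · have : jr (H i' ∘ e.symm) (e x) = jr (H i ∘ e.symm) (e x) := by
        rw [jr, jr, Filter.EventuallyEq.fderiv_eq (f₁ := H i' ∘ e.symm)
          (f := fun w => (H i ∘ e.symm) w + I • io j a) ((KA.ev_iff hxe).1 ha), fderiv_add_const]
      simp only [tA, pb, this]
  have e : ∀ i x, χ i x * (fderiv ℝ ψ (H i x) v * tD M (k + j) G (pb M (H i) 1) x) =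
      ∑ l, 2 * (v l * ((χ i x : ℂ) * (dz l (fun t => (ψ t : ℂ)) (H i x) *
        tD M (k + j) G (pb M (H i) 1) x))).re := fun i x => by
    rw [fd_re hψ, Finset.sum_mul, Finset.mul_sum]
    refine Finset.sum_congr rfl fun l _ => ?_
    rw [mul_left_comm (v l), re_ofReal_mul, ← mul_assoc (v l), re_mul_ofReal]
    ring
  have i1 := fun i l => ((key l).1 i).const_mul (v l)
  have i2 := fun i l => (i1 i l).re.const_mul 2
  simp only [RCLike.re_to_complex] at i2
  simp only [e]
  refine ⟨fun i => integrable_finsetSum _ fun l _ => i2 i l, ?_⟩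
  rw [Finset.sum_congr rfl fun i _ => integral_finsetSum _ fun l _ => i2 i l, Finset.sum_comm]
  refine Finset.sum_eq_zero fun l _ => ?_
  have := congrArg (fun c => 2 * (v l * c).re) (key l).2
  simp only [mul_zero, zero_re, Finset.mul_sum, re_sum] at this
  rw [← this]
  refine Finset.sum_congr rfl fun i _ => ?_
  rw [integral_const_mul, ← integral_const_mul (v l)]
  exact congrArg _ (integral_re (i1 i l))

end Pool.Agent.Lib.RAD
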