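import Pool.Agent.Lib.RYD.Asm
import Pool.Agent.Lib.RYD.B_BT1
import Pool.Agent.Lib.RYD.B_BT2
import Pool.Agent.Lib.RYD.B_CHA
import Pool.Agent.Lib.RYD.B_D1
import Pool.Agent.Lib.RYD.B_FLD
import Pool.Agent.Lib.RYD.B_GLU
import Pool.Agent.Lib.RYD.B_JAP
import Pool.Agent.Lib.RYD.B_JPA
import Pool.Agent.Lib.RYD.B_JPC
import Pool.Agent.Lib.RYD.B_LIN
import Pool.Agent.Lib.RYD.B_LIP
import Pool.Agent.Lib.RYD.B_LOC
import Pool.Agent.Lib.RYD.B_PRD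
import Pool.Agent.Lib.RYD.B_SEED
import Pool.Agent.Lib.RYD.B_SER
import Pool.Agent.Lib.RYD.B_SHF
import Pool.Agent.Lib.RYD.B_STP
import Pool.Agent.Lib.RYD.B_TRF
import Pool.Agent.Lib.RYD.B_WID
import Pool.Agent.Lib.RYD.B_ZER
import Pool.Agent.Lib.RYD.B_ZR1
import Pool.Agent.Lib.RYD.B_ZR2
import Pool.Agent.Lib.RYB.All0
import Pool.Agent.Lib.RY.B_ATL
import Pool.Agent.Lib.RY.B_EXT
import Pool.Agent.Lib.RY.B_GIBP
import Pool.Agent.Lib.RY.B_LEV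
import Pool.Agent.Lib.RY.B_PCOV
import Pool.Agent.Lib.RY.B_TOP
import Pool.Agent.Lib.RY.B_WAD

/-! Project ra2, step D: assembly. -/

namespace Pool.Agent.Lib.RAD

open Pool.Agent.Lib.RA

theorem dKPB : St_KPB := fun n r M G φ ν e c R Φ hS hH hν he hR hb hP =>
  let ⟨m, h1, h2⟩ := ((bPBX n r M G φ hS hH e he).2 c R Φ hR hb hP).2 ν fun _ _ => hν _
  ⟨m, h1, h1.hol, h2⟩

theorem dWAD : St_WAD := st_WAD st_TV

theorem dTOP : St_TOP := st_TOP st_CH2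

theorem dATL : St_ATL := st_ATL1 st_TV st_EXT st_X0 st_PCOV dWAD

theorem dD1 : St_D1 :=
  st_D1 st_PCOV (st_LOC dKPB (st_FLD dWAD st_CH2 st_TV st_PZ) st_SEED st_SER)

theorem dZER : St_ZER := st_ZER (st_ZR1 st_CH2 dTOP st_BR) st_ZR2 dTOP st_CH2

theorem dCHA : St_CHA := st_CHA st_PRD st_SHF dZER dATL dWAD st_RKP st_X0

theorem dTRF : St_TRF := st_TRF st_JAP st_JPC (st_JPA st_LEV) dCHA st_BT1 (st_BT2 st_TV)

/-- Step D. -/
theorem dD : St_D := st_D dD1 dTRF (st_STP st_WID st_GLU) st_JAP st_JPC st_LIN st_LIP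

end Pool.Agent.Lib.RAD
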