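import Pool.Agent.Lib.RYD.Blue

/-! Project ra2, step D: the limit of the stages. -/

open scoped Topology
open Set Metric Filter

noncomputable section

namespace Pool.Agent.Lib.RAD

open Pool.Agent.Lib.SV (E)
open Pool.Agent.Lib.HS32 Pool.Agent.Lib.RA

theorem Stg.congr {n k j : ℕ} {M : Mf n} {φ : M.Fam ℝ} {μ : Fin k → M.X → ℝ} {V : M.Cov}
    {ρ ρ' : (Fin k → ℝ) → M.X → ℝ} {R s d B : ℝ} (h : Stg M j φ μ V ρ R s d B)
    (e : ∀ ξ ∈ ball (0 : Fin k → ℝ) (R + s), ρ' ξ = ρ ξ) : Stg M j φ μ V ρ' R s d B := by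
  have h0 : ball (0 : Fin k → ℝ) (R + s) ∈ 𝓝 0 := ball_mem_nhds _ (by linarith [h.r0, h.s0])
  have e0 := e 0 (mem_of_mem_nhds h0)
  refine ⟨⟨fun x => by rw [e0, h.z0], fun x₀ Φ δ c O H σ hb x hx => ?_⟩, h.r0, h.s0, h.d0, h.b1,
    fun ξ hξ a c hc => ?_, fun x => ?_⟩
  · filter_upwards [h.box x₀ Φ δ c O H σ hb x hx,
      (continuous_fst.tendsto ((0 : Fin k → ℝ), x)).eventually h0] with w h1 h2
    rw [zero_add] at h1 ⊢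
    rw [e0, e _ h2, h1]
  · obtain ⟨h1, F, h2, h3, h4⟩ := h.pz ξ hξ a c hc
    refine ⟨h1, F, h2, h3, fun ζ hζ z hz => ?_⟩
    rw [h4 ζ hζ z hz, e ζ (ball_subset_ball' (by linarith [mem_ball.1 hξ]) hζ)]
  · obtain ⟨g, κ, h1, h2, h3⟩ := h.st x
    refine ⟨g, κ, h1, h2, ?_⟩
    filter_upwards [h3, h0] with ζ h4 h5
    simpa only [e ζ h5] using h4

theorem st_D (D1 : St_D1) (TRF : St_TRF) (STP : St_STP) (JAP : St_JAP) (JPC : St_JPC)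
    (LIN : St_LIN) (LIP : St_LIP) : St_D := by
  intro n k j M _ G φ μ hS _ _ hH hK hd hB hN
  obtain ⟨V, ρ₀, s, d, hV, h0⟩ := D1 n k j M G φ μ hS hH hK hd hB
  have hs := h0.s0
  let P : ℕ → ((Fin k → ℝ) → M.X → ℝ) → Prop := fun N ρ =>
    Stg M j φ μ V ρ (s + N * (s / 2)) s (d / 64 ^ N) (11 ^ N)
  have step : ∀ N ρ, P N ρ → ∃ ρ', P (N + 1) ρ' ∧
      ∀ ξ ∈ ball (0 : Fin k → ℝ) (s + N * (s / 2) + s), ρ' ξ = ρ ξ := by
    intro N ρ h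
    obtain ⟨ρ', h1, h2⟩ := STP n k j M φ μ V ρ _ _ _ _ h
      (TRF n k j M G φ μ V ρ _ _ _ _ hS hd hB hN h)
    refine ⟨ρ', ?_, h2⟩
    have e1 : s + ((N + 1 : ℕ) : ℝ) * (s / 2) = s + N * (s / 2) + s / 2 := by push_cast; ring
    have e2 : d / 64 ^ (N + 1) = d / 64 ^ N / 64 := by rw [pow_succ, div_div]
    have e3 : (11 : ℝ) ^ (N + 1) = 11 * 11 ^ N := pow_succ' _ _
    simp only [P, e1, e2, e3]
    exact h1
  choose nx h1 h2 using step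
  let q : ∀ N : ℕ, {ρ // P N ρ} := fun N =>
    Nat.rec ⟨ρ₀, by simpa [P] using h0⟩ (fun N r => ⟨nx N r.1 r.2, h1 N r.1 r.2⟩) N
  have mono : ∀ N N' : ℕ, N ≤ N' → ∀ ξ ∈ ball (0 : Fin k → ℝ) (s + N * (s / 2) + s),
      (q N').1 ξ = (q N).1 ξ := by
    intro N N' h ξ hξ
    induction N', h using Nat.le_induction with
    | base => rfl
    | succ N' h ih =>
      have h3 : (N : ℝ) ≤ N' := by exact_mod_cast h
      rw [← ih]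
      exact h2 N' (q N').1 (q N').2 ξ (ball_subset_ball (by nlinarith) hξ)
  have big : ∀ R : ℝ, ∃ N : ℕ, R < s + N * (s / 2) := fun R => by
    obtain ⟨N, hN⟩ := exists_nat_gt (R / (s / 2))
    rw [div_lt_iff₀ (by linarith)] at hN
    exact ⟨N, by linarith⟩
  choose nb hb using big
  let ρ : (Fin k → ℝ) → M.X → ℝ := fun ξ => (q (nb ‖ξ‖)).1 ξ
  have hP : ∀ N, P N ρ := fun N => (q N).2.congr fun ξ hξ => by
    rw [← mono N _ (le_max_left N (nb ‖ξ‖)) ξ hξ]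
    exact (mono _ _ (le_max_right N (nb ‖ξ‖)) ξ
      (mem_ball_zero_iff.2 (by linarith [hb ‖ξ‖]))).symm
  have hm : ∀ ξ : Fin k → ℝ, ξ ∈ ball (0 : Fin k → ℝ) (s + nb ‖ξ‖ * (s / 2)) := fun ξ =>
    mem_ball_zero_iff.2 (hb _)
  have ja : ∀ ξ x, JA M ρ ξ x := fun ξ =>
    JAP n k M V ρ ξ _ _ _ hs (hP _).d0 ((hP _).pz ξ (hm ξ))
  have tr : ∀ ξ, Trf M φ ρ ξ s := fun ξ =>
    TRF n k j M G φ μ V ρ _ _ _ _ hS hd hB hN (hP _) ξ (hm ξ)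
  have jp : ∀ ξ x, JP M φ ρ ξ x := fun ξ x =>
    (JPC n k M φ ρ hS.an).1 ξ x (ja ξ x) ((tr ξ x).mono fun _ h => h.2)
  exact ⟨V, ρ, (hP 0).toIni, hV, fun R => ⟨s, _, _, hs, (hP (nb R)).d0, fun ξ hξ =>
      (hP _).pz ξ (ball_subset_ball (hb R).le hξ)⟩, ja, jp,
    fun x => (JPC n k M φ ρ hS.an).2 x fun ξ => ⟨ja ξ x, jp ξ x⟩,
    ⟨s⁻¹, inv_pos.2 hs, LIN n k M ρ s hs (hP 0).z0 ja fun ξ x => (tr ξ x).mono fun _ h => h.1⟩,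
    LIP n k M V ρ s d hs h0.d0 fun N => (hP N).pz⟩

end Pool.Agent.Lib.RAD
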